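import Pool.Agent.H30.KL.Defs

/-! # Ranks of boxes, points of Kazhdan–Lusztig varieties -/

open MvPolynomial Matrix

namespace Pool.Agent.H30.KL

variable {n : ℕ}

/-- a matrix of rank at least `m` has `m` linearly independent rows -/
theorem exists_rows {β : Type*} [Fintype β] (M : Matrix (Fin n) β ℂ) {m : ℕ} (hm : m ≤ M.rank) :
    ∃ f : Fin m ↪o Fin n, LinearIndependent ℂ (M.submatrix f id).row := by
  obtain ⟨κ, a, ha, hspan, hli⟩ := exists_linearIndependent' ℂ M.row
  haveI : Finite κ := Finite.of_injective a ha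
  haveI := Fintype.ofFinite κ
  have hcard : Fintype.card κ = M.rank := by
    rw [M.rank_eq_finrank_span_row, ← hspan]
    exact (finrank_span_eq_card hli).symm
  have hS : (Finset.univ.map ⟨a, ha⟩ : Finset (Fin n)).card = M.rank := by
    rw [Finset.card_map, Finset.card_univ, hcard]
  obtain ⟨T, hT, hTc⟩ := Finset.exists_subset_card_eq (hS.symm ▸ hm)
  refine ⟨T.orderEmbOfFin hTc, ?_⟩
  have hmem : ∀ x : Fin m, ∃ k : κ, a k = T.orderEmbOfFin hTc x := by
    intro x
    have := hT (T.orderEmbOfFin_mem hTc x)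
    simpa using this
  choose b hb using hmem
  have hbinj : Function.Injective b := by
    intro x y hxy
    apply (T.orderEmbOfFin hTc).injective
    rw [← hb, ← hb, hxy]
  have h := hli.comp b hbinj
  have he : (M.row ∘ a) ∘ b = (M.submatrix (T.orderEmbOfFin hTc) id).row := by
    funext x
    simp only [Function.comp_apply, hb]
    rfl
  exact he ▸ h

/-- a matrix of rank at least `m` has a nonzero minor of size `m` -/
theorem exists_minor (M : Matrix (Fin n) (Fin n) ℂ) {m : ℕ} (hm : m ≤ M.rank) :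
    ∃ f g : Fin m ↪o Fin n, (M.submatrix f g).det ≠ 0 := by
  obtain ⟨f, hf⟩ := exists_rows M hm
  have h1 : (M.submatrix f id).rank = m := by
    rw [hf.rank_matrix, Fintype.card_fin]
  have h2 : m ≤ ((M.submatrix f id)ᵀ).rank := by
    rw [rank_transpose, h1]
  obtain ⟨g, hg⟩ := exists_rows _ h2
  refine ⟨f, g, ?_⟩
  have h3 : (M.submatrix f id)ᵀ.submatrix g id = (M.submatrix f g)ᵀ := by
    ext x y
    rfl
  rw [h3] at hg
  have h4 := Matrix.linearIndependent_rows_iff_isUnit.1 hg
  rw [Matrix.isUnit_iff_isUnit_det, det_transpose] at h4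
  exact h4.ne_zero

/-- the box of a matrix: rows `≥ i`, columns `≤ j`, the other entries are replaced by `0` -/
def box (i j : Fin n) (M : Matrix (Fin n) (Fin n) ℂ) : Matrix (Fin n) (Fin n) ℂ :=
  Matrix.of fun p q => if i ≤ p ∧ q ≤ j then M p q else 0

theorem box_apply (i j : Fin n) (M : Matrix (Fin n) (Fin n) ℂ) (p q : Fin n) :
    box i j M p q = if i ≤ p ∧ q ≤ j then M p q else 0 := rfl

theorem box_eq (i j : Fin n) (M : Matrix (Fin n) (Fin n) ℂ) :
    box i j M = diagonal (fun p => if i ≤ p then (1 : ℂ) else 0) * M *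
      diagonal (fun q => if q ≤ j then (1 : ℂ) else 0) := by
  ext p q
  rw [mul_diagonal, diagonal_mul, box_apply]
  by_cases h1 : i ≤ p <;> by_cases h2 : q ≤ j <;> simp [h1, h2]

/-- upper triangular -/
def Upper (A : Matrix (Fin n) (Fin n) ℂ) : Prop := ∀ p q, q < p → A p q = 0

theorem Upper.mul {A B : Matrix (Fin n) (Fin n) ℂ} (hA : Upper A) (hB : Upper B) :
    Upper (A * B) := by
  intro p q hpq
  rw [mul_apply]
  apply Finset.sum_eq_zero
  intro k _
  by_cases h : k < p
  · rw [hA p k h, zero_mul]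
  · rw [hB k q (lt_of_lt_of_le hpq (not_lt.1 h)), mul_zero]

theorem Upper.inv {A : Matrix (Fin n) (Fin n) ℂ} (hA : Upper A) (h : IsUnit A) :
    Upper A⁻¹ := by
  have h1 : A.BlockTriangular id := fun p q hpq => hA p q hpq
  haveI : Invertible A := h.invertible
  have h2 := blockTriangular_inv_of_blockTriangular h1
  exact fun p q hpq => h2 hpq

theorem box_mul_left (i j : Fin n) {A M : Matrix (Fin n) (Fin n) ℂ} (hA : Upper A) :
    box i j (A * M) = diagonal (fun p => if i ≤ p then (1 : ℂ) else 0) * A * box i j M := by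
  ext p q
  rw [box_apply, mul_assoc, diagonal_mul, mul_apply, mul_apply]
  by_cases h1 : i ≤ p
  · by_cases h2 : q ≤ j
    · rw [if_pos ⟨h1, h2⟩, if_pos h1, one_mul]
      apply Finset.sum_congr rfl
      intro k _
      rw [box_apply]
      by_cases h3 : k < p
      · rw [hA p k h3, zero_mul, zero_mul]
      · rw [if_pos ⟨le_trans h1 (not_lt.1 h3), h2⟩]
    · rw [if_neg (fun h => h2 h.2), if_pos h1, one_mul]
      symm
      apply Finset.sum_eq_zero
      intro k _
      rw [box_apply, if_neg (fun h => h2 h.2), mul_zero]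
  · rw [if_neg (fun h => h1 h.1), if_neg h1, zero_mul]

theorem box_mul_right (i j : Fin n) {B M : Matrix (Fin n) (Fin n) ℂ} (hB : Upper B) :
    box i j (M * B) = box i j M * (B * diagonal (fun q => if q ≤ j then (1 : ℂ) else 0)) := by
  ext p q
  rw [box_apply, ← mul_assoc, mul_diagonal, mul_apply, mul_apply]
  by_cases h2 : q ≤ j
  · by_cases h1 : i ≤ p
    · rw [if_pos ⟨h1, h2⟩, if_pos h2, mul_one]
      apply Finset.sum_congr rfl
      intro k _
      rw [box_apply]
      by_cases h3 : q < k
      · rw [hB k q h3, mul_zero, mul_zero]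
      · rw [if_pos ⟨h1, le_trans (not_lt.1 h3) h2⟩]
    · rw [if_neg (fun h => h1 h.1), if_pos h2, mul_one]
      symm
      apply Finset.sum_eq_zero
      intro k _
      rw [box_apply, if_neg (fun h => h1 h.1), zero_mul]
  · rw [if_neg (fun h => h2 h.2), if_neg h2, mul_zero]

theorem rank_box_mul_le (i j : Fin n) {A B M : Matrix (Fin n) (Fin n) ℂ} (hA : Upper A)
    (hB : Upper B) : (box i j (A * M * B)).rank ≤ (box i j M).rank := by
  rw [box_mul_right i j hB, box_mul_left i j hA]
  exact le_trans (rank_mul_le_left _ _) (rank_mul_le_right _ _)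

theorem rank_box_mul (i j : Fin n) {A B M : Matrix (Fin n) (Fin n) ℂ} (hA : Upper A)
    (hB : Upper B) (hA' : IsUnit A) (hB' : IsUnit B) :
    (box i j (A * M * B)).rank = (box i j M).rank := by
  refine le_antisymm (rank_box_mul_le i j hA hB) ?_
  have h := rank_box_mul_le i j (M := A * M * B) (hA.inv hA') (hB.inv hB')
  have h1 : A⁻¹ * (A * M * B) * B⁻¹ = M := by
    have e1 : A⁻¹ * A = 1 := nonsing_inv_mul A ((isUnit_iff_isUnit_det A).1 hA')
    have e2 : B * B⁻¹ = 1 := mul_nonsing_inv B ((isUnit_iff_isUnit_det B).1 hB')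
    calc A⁻¹ * (A * M * B) * B⁻¹ = (A⁻¹ * A) * M * (B * B⁻¹) := by simp only [mul_assoc]
      _ = M := by rw [e1, e2, one_mul, mul_one]
  rwa [h1] at h

/-- the permutation matrix with ones at `(v q, q)` -/
def pm (v : Equiv.Perm (Fin n)) : Matrix (Fin n) (Fin n) ℂ :=
  Matrix.of fun p q => if v q = p then 1 else 0

theorem pm_apply (v : Equiv.Perm (Fin n)) (p q : Fin n) : pm v p q = if v q = p then 1 else 0 := rfl

theorem isUnit_pm (v : Equiv.Perm (Fin n)) : IsUnit (pm v) := by
  have h : pm v * (pm v)ᵀ = 1 := by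
    ext p q
    rw [mul_apply, one_apply]
    simp only [transpose_apply, pm_apply]
    rw [Finset.sum_eq_single (v.symm p)]
    · simp
    · intro b _ hb
      rw [if_neg, zero_mul]
      intro h
      exact hb (by rw [← h]; simp)
    · simp
  exact IsUnit.of_mul_eq_one _ h

theorem rank_box_pm (i j : Fin n) (v : Equiv.Perm (Fin n)) : (box i j (pm v)).rank = rk v i j := by
  have h : box i j (pm v) = pm v * diagonal (fun q => if q ≤ j ∧ i ≤ v q then (1 : ℂ) else 0) := by
    ext p q
    rw [mul_diagonal, box_apply, pm_apply]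
    by_cases h : v q = p
    · subst h
      by_cases h1 : q ≤ j <;> by_cases h2 : i ≤ v q <;> simp [h1, h2]
    · simp [h]
  rw [h, rank_mul_eq_right_of_isUnit_det _ _ ((isUnit_iff_isUnit_det _).1 (isUnit_pm v)),
    rank_diagonal, rk, Fintype.card_subtype]
  congr 1
  ext q
  simp

/-- `M` satisfies the rank conditions of `v` -/
def InX (v : Equiv.Perm (Fin n)) (M : Matrix (Fin n) (Fin n) ℂ) : Prop :=
  ∀ i j, (box i j M).rank ≤ rk v i j

theorem InX.mul {v : Equiv.Perm (Fin n)} {A B M : Matrix (Fin n) (Fin n) ℂ} (h : InX v M)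
    (hA : Upper A) (hB : Upper B) : InX v (A * M * B) :=
  fun i j => le_trans (rank_box_mul_le i j hA hB) (h i j)

theorem inX_pm (v : Equiv.Perm (Fin n)) : InX v (pm v) := fun i j => (rank_box_pm i j v).le

/-- the rank conditions in terms of minors -/
theorem rank_le_iff (i j : Fin n) (M : Matrix (Fin n) (Fin n) ℂ) (m : ℕ) :
    (box i j M).rank ≤ m ↔ ∀ f g : Fin (m + 1) ↪o Fin n, (∀ a, i ≤ f a) → (∀ b, g b ≤ j) →
      (M.submatrix f g).det = 0 := by
  constructor
  · intro h f g hf hg
    by_contra hne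
    have h1 : (M.submatrix f g) = (box i j M).submatrix f g := by
      ext a b
      simp only [submatrix_apply, box_apply]
      rw [if_pos ⟨hf a, hg b⟩]
    have h2 := rank_of_det_ne_zero hne
    rw [Fintype.card_fin] at h2
    have h3 := rank_submatrix_le (box i j M) f g
    rw [← h1, h2] at h3
    omega
  · intro h
    by_contra hlt
    push Not at hlt
    obtain ⟨f, g, hfg⟩ := exists_minor (box i j M) (m := m + 1) hlt
    have hf : ∀ a, i ≤ f a := by
      intro a
      by_contra hcon
      apply hfg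
      apply det_eq_zero_of_row_eq_zero a
      intro b
      rw [submatrix_apply, box_apply, if_neg (fun h => hcon h.1)]
    have hg : ∀ b, g b ≤ j := by
      intro b
      by_contra hcon
      apply hfg
      apply det_eq_zero_of_column_eq_zero b
      intro a
      rw [submatrix_apply, box_apply, if_neg (fun h => hcon h.2)]
    apply hfg
    rw [← h f g hf hg]
    congr 1
    ext a b
    simp only [submatrix_apply, box_apply]
    rw [if_pos ⟨hf a, hg b⟩]

/-- the matrix `Z^{(u)}` at a point -/
noncomputable def pt (u : Equiv.Perm (Fin n)) (z : Free u → ℂ) : Matrix (Fin n) (Fin n) ℂ :=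
  Matrix.of fun r c =>
    if h : u c < r ∧ c < u.symm r then z ⟨(r, c), h⟩ else if u c = r then 1 else 0

theorem pt_apply (u : Equiv.Perm (Fin n)) (z : Free u → ℂ) (r c : Fin n) : pt u z r c =
    if h : u c < r ∧ c < u.symm r then z ⟨(r, c), h⟩ else if u c = r then 1 else 0 := rfl

theorem map_Zmat (u : Equiv.Perm (Fin n)) (z : Free u → ℂ) :
    (Zmat u).map (eval z) = pt u z := by
  ext r c
  rw [map_apply, Zmat, of_apply, pt_apply]
  by_cases h : u c < r ∧ c < u.symm r
  · rw [dif_pos h, dif_pos h, eval_X]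
  · rw [dif_neg h, dif_neg h]
    by_cases h2 : u c = r
    · rw [if_pos h2, if_pos h2, map_one]
    · rw [if_neg h2, if_neg h2, map_zero]

theorem eval_minor {m : ℕ} (u : Equiv.Perm (Fin n)) (z : Free u → ℂ) (f g : Fin m → Fin n) :
    eval z ((Zmat u).submatrix f g).det = ((pt u z).submatrix f g).det := by
  rw [← map_Zmat, RingHom.map_det]
  rfl

/-- the zero locus of the Kazhdan–Lusztig ideal -/
theorem mem_locus_iff (u v : Equiv.Perm (Fin n)) (z : Free u → ℂ) :
    (∀ x ∈ klIdeal u v, eval z x = 0) ↔ InX v (pt u z) := by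
  constructor
  · intro h i j
    rw [rank_le_iff]
    intro f g hf hg
    rw [← eval_minor]
    exact h _ (Ideal.subset_span ⟨i, j, f, g, hf, hg, rfl⟩)
  · intro h x hx
    have h1 : klIdeal u v ≤ RingHom.ker (eval z) := by
      rw [klIdeal, Ideal.span_le]
      rintro x ⟨i, j, f, g, hf, hg, rfl⟩
      rw [SetLike.mem_coe, RingHom.mem_ker, eval_minor]
      exact (rank_le_iff i j _ _).1 (h i j) f g hf hg
    exact h1 hx

theorem eval_smul_homogeneous {σ : Type*} {p : MvPolynomial σ ℂ} {k : ℕ} (hp : p.IsHomogeneous k)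
    (z : σ → ℂ) (t : ℂ) : eval (fun i => t * z i) p = t ^ k * eval z p := by
  rw [eval_eq, eval_eq, Finset.mul_sum]
  apply Finset.sum_congr rfl
  intro d hd
  have hdeg : d.degree = k := by
    by_contra hne
    exact (mem_support_iff.1 hd) (hp.coeff_eq_zero hne)
  simp only [mul_pow, Finset.prod_mul_distrib]
  rw [Finset.prod_pow_eq_pow_sum]
  have : ∑ i ∈ d.support, d i = k := by
    rw [← hdeg]; rfl
  rw [this]
  ring

attribute [local instance] MvPolynomial.gradedAlgebra

/-- if `I_{u,v}` is homogeneous, its zero locus is stable under dilations -/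
theorem Hom.scale {u v : Equiv.Perm (Fin n)} (h : Hom u v) {z : Free u → ℂ}
    (hz : InX v (pt u z)) (t : ℂ) : InX v (pt u (fun i => t * z i)) := by
  rw [← mem_locus_iff] at hz ⊢
  intro x hx
  rw [← sum_homogeneousComponent x, map_sum]
  apply Finset.sum_eq_zero
  intro k _
  rw [eval_smul_homogeneous (homogeneousComponent_isHomogeneous k x),
    hz _ (homogeneousComponent_mem_of_mem h hx k), mul_zero]

end Pool.Agent.H30.KL
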