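import Pool.Agent.H30.KL.Basic

/-! # The obstruction given by a `123` pattern of `u` -/

open MvPolynomial Matrix

namespace Pool.Agent.H30.KL

variable {n : ℕ}

theorem Upper.isUnit {A : Matrix (Fin n) (Fin n) ℂ} (hA : Upper A) (h : ∀ i, A i i ≠ 0) :
    IsUnit A := by
  rw [isUnit_iff_isUnit_det, isUnit_iff_ne_zero]
  have h1 : A.BlockTriangular id := fun p q hpq => hA p q hpq
  rw [det_of_upperTriangular h1]
  exact Finset.prod_ne_zero_iff.2 fun i _ => h i

/-- row operations -/
def Ab (r1 r2 r3 : Fin n) (α β γ : ℂ) : Matrix (Fin n) (Fin n) ℂ :=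
  Matrix.of fun p x => (if x = p then 1 else 0) + (if p = r1 then (if x = r2 then α else 0) else 0) +
    (if p = r1 then (if x = r3 then β else 0) else 0) +
    (if p = r2 then (if x = r3 then γ else 0) else 0)

/-- column operations -/
def Bb (a k c : Fin n) (b : Fin 3 → Fin 3 → ℂ) : Matrix (Fin n) (Fin n) ℂ :=
  Matrix.of fun y q =>
    if y = a then (if q = a then b 0 0 else if q = k then b 0 1 else if q = c then b 0 2 else 0)
    else if y = k then (if q = k then b 1 1 else if q = c then b 1 2 else 0)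
    else if y = c then (if q = c then b 2 2 else 0) else if y = q then 1 else 0

theorem Ab_mul (r1 r2 r3 : Fin n) (α β γ : ℂ) (M : Matrix (Fin n) (Fin n) ℂ) (p q : Fin n) :
    (Ab r1 r2 r3 α β γ * M) p q = M p q + (if p = r1 then α * M r2 q + β * M r3 q else 0) +
      (if p = r2 then γ * M r3 q else 0) := by
  rw [mul_apply]
  simp only [Ab, of_apply, add_mul, Finset.sum_add_distrib]
  have s0 : ∑ x, (if x = p then (1 : ℂ) else 0) * M x q = M p q := by simp
  have s1 : ∀ (P : Prop) [Decidable P] (r : Fin n) (δ : ℂ),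
      ∑ x, (if P then (if x = r then δ else 0) else 0) * M x q = if P then δ * M r q else 0 := by
    intro P _ r δ
    split_ifs <;> simp
  rw [s0, s1, s1, s1]
  split_ifs <;> ring

theorem pm_mul (w : Equiv.Perm (Fin n)) (B : Matrix (Fin n) (Fin n) ℂ) (p q : Fin n) :
    (pm w * B) p q = B (w.symm p) q := by
  rw [mul_apply, Finset.sum_eq_single (w.symm p)]
  · rw [pm_apply, if_pos (by simp), one_mul]
  · intro y _ hy
    rw [pm_apply, if_neg, zero_mul]
    intro h
    exact hy (by rw [← h]; simp)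
  · simp

theorem upper_Ab {r1 r2 r3 : Fin n} (h12 : r1 < r2) (h23 : r2 < r3) (α β γ : ℂ) :
    Upper (Ab r1 r2 r3 α β γ) := by
  intro p q hpq
  have h0 : q ≠ p := hpq.ne
  have h1 : ¬ (p = r1 ∧ q = r2) := by rintro ⟨rfl, rfl⟩; exact absurd hpq (not_lt.2 h12.le)
  have h2 : ¬ (p = r1 ∧ q = r3) := by
    rintro ⟨rfl, rfl⟩; exact absurd hpq (not_lt.2 (h12.trans h23).le)
  have h3 : ¬ (p = r2 ∧ q = r3) := by rintro ⟨rfl, rfl⟩; exact absurd hpq (not_lt.2 h23.le)
  simp only [Ab, of_apply, ← ite_and]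
  rw [if_neg h0, if_neg h1, if_neg h2, if_neg h3]
  simp

theorem diag_Ab {r1 r2 r3 : Fin n} (h12 : r1 < r2) (h23 : r2 < r3) (α β γ : ℂ) (p : Fin n) :
    Ab r1 r2 r3 α β γ p p = 1 := by
  have h1 : ¬ (p = r1 ∧ p = r2) := by rintro ⟨rfl, rfl⟩; exact lt_irrefl _ h12
  have h2 : ¬ (p = r1 ∧ p = r3) := by rintro ⟨rfl, rfl⟩; exact lt_irrefl _ (h12.trans h23)
  have h3 : ¬ (p = r2 ∧ p = r3) := by rintro ⟨rfl, rfl⟩; exact lt_irrefl _ h23
  simp only [Ab, of_apply, ← ite_and]
  rw [if_neg h1, if_neg h2, if_neg h3]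
  simp

theorem upper_Bb {a k c : Fin n} (h12 : a < k) (h23 : k < c) (b : Fin 3 → Fin 3 → ℂ) :
    Upper (Bb a k c b) := by
  intro y q hyq
  have h13 := h12.trans h23
  simp only [Bb, of_apply]
  by_cases hy : y = a
  · subst hy
    have e1 : q ≠ k := fun h => absurd hyq (not_lt.2 (h ▸ h12.le))
    have e2 : q ≠ c := fun h => absurd hyq (not_lt.2 (h ▸ h13.le))
    rw [if_pos rfl, if_neg hyq.ne, if_neg e1, if_neg e2]
  · rw [if_neg hy]
    by_cases hy2 : y = k
    · subst hy2
      have e2 : q ≠ c := fun h => absurd hyq (not_lt.2 (h ▸ h23.le))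
      rw [if_pos rfl, if_neg hyq.ne, if_neg e2]
    · rw [if_neg hy2]
      by_cases hy3 : y = c
      · subst hy3
        rw [if_pos rfl, if_neg hyq.ne]
      · rw [if_neg hy3, if_neg hyq.ne']

theorem diag_Bb {a k c : Fin n} (h12 : a < k) (h23 : k < c) {b : Fin 3 → Fin 3 → ℂ}
    (h0 : b 0 0 ≠ 0) (h1 : b 1 1 ≠ 0) (h2 : b 2 2 ≠ 0) (y : Fin n) : Bb a k c b y y ≠ 0 := by
  simp only [Bb, of_apply]
  by_cases hy : y = a
  · rw [if_pos hy, if_pos hy]; exact h0
  · rw [if_neg hy]
    by_cases hy2 : y = k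
    · rw [if_pos hy2, if_pos hy2]; exact h1
    · rw [if_neg hy2]
      by_cases hy3 : y = c
      · rw [if_pos hy3, if_pos hy3]; exact h2
      · rw [if_neg hy3]; simp

/-- the `3 × 3` block -/
def blk (u : Equiv.Perm (Fin n)) (a k c : Fin n) (t : ℂ) : Matrix (Fin n) (Fin n) ℂ :=
  Matrix.of fun p q => (if u q = p then 1 else 0) +
    (if (p = u k ∧ q = a) ∨ (p = u c ∧ q = k) ∨ (p = u c ∧ q = a) then t else 0)

/-- the point of the cell -/
def zpt (u : Equiv.Perm (Fin n)) (a k c : Fin n) : Free u → ℂ := fun x =>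
  if (x.1.1 = u k ∧ x.1.2 = a) ∨ (x.1.1 = u c ∧ x.1.2 = k) ∨ (x.1.1 = u c ∧ x.1.2 = a) then 1 else 0

theorem pt_zpt (u : Equiv.Perm (Fin n)) {a k c : Fin n} (h12 : a < k) (h23 : k < c)
    (g12 : u a < u k) (g23 : u k < u c) (t : ℂ) :
    pt u (fun i => t * zpt u a k c i) = blk u a k c t := by
  ext p q
  rw [pt_apply]
  simp only [blk, of_apply, zpt]
  have h13 := h12.trans h23
  have g13 := g12.trans g23
  by_cases hP : (p = u k ∧ q = a) ∨ (p = u c ∧ q = k) ∨ (p = u c ∧ q = a)
  · have h1 : u q < p ∧ q < u.symm p := by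
      rcases hP with ⟨rfl, rfl⟩ | ⟨rfl, rfl⟩ | ⟨rfl, rfl⟩
      · exact ⟨g12, by simpa using h12⟩
      · exact ⟨g23, by simpa using h23⟩
      · exact ⟨g13, by simpa using h13⟩
    rw [dif_pos h1, if_pos hP, if_pos hP, if_neg h1.1.ne, mul_one, zero_add]
  · rw [if_neg hP]
    by_cases h1 : u q < p ∧ q < u.symm p
    · rw [dif_pos h1, if_neg h1.1.ne, if_neg hP, mul_zero, add_zero]
    · rw [dif_neg h1]
      simp

/-- the value permutation of the three-cycle -/
def w312 (u : Equiv.Perm (Fin n)) (a k c : Fin n) : Equiv.Perm (Fin n) :=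
  u * (Equiv.swap k c * Equiv.swap a k)

/-- the value permutation of the transposition -/
def w321 (u : Equiv.Perm (Fin n)) (a c : Fin n) : Equiv.Perm (Fin n) := u * Equiv.swap a c

section
variable (u : Equiv.Perm (Fin n)) {a k c : Fin n} (h12 : a < k) (h23 : k < c)
include h12 h23

omit h12 h23 in
theorem w312_a : w312 u a k c a = u c := by
  simp [w312]

theorem w312_k : w312 u a k c k = u a := by
  have h1 : a ≠ k := h12.ne
  have h2 : a ≠ c := (h12.trans h23).ne
  simp [w312, Equiv.swap_apply_of_ne_of_ne h1 h2]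

theorem w312_c : w312 u a k c c = u k := by
  have h1 : c ≠ a := (h12.trans h23).ne'
  have h2 : c ≠ k := h23.ne'
  simp [w312, Equiv.swap_apply_of_ne_of_ne h1 h2]

omit h12 h23 in
theorem w312_o {q : Fin n} (h1 : q ≠ a) (h2 : q ≠ k) (h3 : q ≠ c) : w312 u a k c q = u q := by
  simp [w312, Equiv.swap_apply_of_ne_of_ne h1 h2, Equiv.swap_apply_of_ne_of_ne h2 h3]

omit h12 h23 in
theorem w321_a : w321 u a c a = u c := by
  simp [w321]

theorem w321_k : w321 u a c k = u k := by
  simp [w321, Equiv.swap_apply_of_ne_of_ne h12.ne' h23.ne]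

omit h12 h23 in
theorem w321_c : w321 u a c c = u a := by
  simp [w321]

omit h12 h23 in
theorem w321_o {q : Fin n} (h1 : q ≠ a) (h3 : q ≠ c) : w321 u a c q = u q := by
  simp [w321, Equiv.swap_apply_of_ne_of_ne h1 h3]

end

/-- the coefficients for the point with parameter `1` -/
def b1 : Fin 3 → Fin 3 → ℂ := ![![1, 1, 1], ![0, -1, -1], ![0, 0, -1]]

/-- the coefficients for the point with parameter `2` -/
noncomputable def b2 : Fin 3 → Fin 3 → ℂ := ![![2, 2, 1], ![0, -1, -1], ![0, 0, 1 / 2]]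

theorem blk_one (u : Equiv.Perm (Fin n)) {a k c : Fin n} (h12 : a < k) (h23 : k < c) :
    blk u a k c 1 = Ab (u a) (u k) (u c) 0 1 1 * (pm (w312 u a k c) * Bb a k c b1) := by
  have e1 : (w312 u a k c).symm (u c) = a := by
    rw [Equiv.symm_apply_eq, w312_a u]
  have e2 : (w312 u a k c).symm (u a) = k := by
    rw [Equiv.symm_apply_eq, w312_k u h12 h23]
  have e3 : (w312 u a k c).symm (u k) = c := by
    rw [Equiv.symm_apply_eq, w312_c u h12 h23]
  have n1 : k ≠ a := h12.ne'
  have n2 : c ≠ k := h23.ne'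
  have n3 : c ≠ a := (h12.trans h23).ne'
  ext p q
  rw [Ab_mul, pm_mul, pm_mul, pm_mul, e1, e3]
  simp only [blk, of_apply]
  obtain ⟨y, rfl⟩ := u.surjective p
  simp only [u.injective.eq_iff]
  by_cases hy : y = a
  · subst hy
    rw [e2]
    by_cases q1 : q = y
    · subst q1; simp [Bb, b1, n1.symm, n3.symm, n1, n2, n3]
    · by_cases q2 : q = k
      · subst q2; simp [Bb, b1, n1.symm, n3.symm, n2.symm, n1, n2, n3]
      · by_cases q3 : q = c
        · subst q3; simp [Bb, b1, n1.symm, n3.symm, n2.symm, n1, n2, n3]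
        · simp [Bb, b1, n1.symm, n3.symm, n2.symm, n1, n2, n3, q1, q2, q3]
  · by_cases hy2 : y = k
    · subst hy2
      rw [e3]
      by_cases q1 : q = a
      · subst q1; simp [Bb, b1, n1.symm, n3.symm, n1, n2, n3]
      · by_cases q2 : q = y
        · subst q2; simp [Bb, b1, n1.symm, n3.symm, n2.symm, n1, n2, n3]
        · by_cases q3 : q = c
          · subst q3; simp [Bb, b1, n1.symm, n3.symm, n2.symm, n1, n2, n3]
          · simp [Bb, b1, n1.symm, n3.symm, n2.symm, n1, n2, n3, q1, q2, q3]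
    · by_cases hy3 : y = c
      · subst hy3
        rw [e1]
        by_cases q1 : q = a
        · subst q1; simp [Bb, b1, n1.symm, n3.symm, n1, n2, n3]
        · by_cases q2 : q = k
          · subst q2; simp [Bb, b1, n1.symm, n3.symm, n2.symm, n1, n2, n3]
          · by_cases q3 : q = y
            · subst q3; simp [Bb, b1, n1.symm, n3.symm, n2.symm, n1, n2, n3]
            · simp [Bb, b1, n1.symm, n3.symm, n2.symm, n1, n2, n3, q1, q2, q3]
      · have e4 : (w312 u a k c).symm (u y) = y := by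
          rw [Equiv.symm_apply_eq, w312_o u hy hy2 hy3]
        rw [e4]
        by_cases hq : q = y
        · subst hq; simp [Bb, hy, hy2, hy3]
        · simp [Bb, hy, hy2, hy3, hq, Ne.symm hq]

theorem blk_two (u : Equiv.Perm (Fin n)) {a k c : Fin n} (h12 : a < k) (h23 : k < c) :
    blk u a k c 2 = Ab (u a) (u k) (u c) 1 (1 / 2) 1 * (pm (w321 u a c) * Bb a k c b2) := by
  have e1 : (w321 u a c).symm (u c) = a := by
    rw [Equiv.symm_apply_eq, w321_a u]
  have e2 : (w321 u a c).symm (u a) = c := by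
    rw [Equiv.symm_apply_eq, w321_c u]
  have e3 : (w321 u a c).symm (u k) = k := by
    rw [Equiv.symm_apply_eq, w321_k u h12 h23]
  have n1 : k ≠ a := h12.ne'
  have n2 : c ≠ k := h23.ne'
  have n3 : c ≠ a := (h12.trans h23).ne'
  ext p q
  rw [Ab_mul, pm_mul, pm_mul, pm_mul, e1, e3]
  simp only [blk, of_apply]
  obtain ⟨y, rfl⟩ := u.surjective p
  simp only [u.injective.eq_iff]
  by_cases hy : y = a
  · subst hy
    rw [e2]
    by_cases q1 : q = y
    · subst q1; simp [Bb, b2, n1.symm, n3.symm, n1, n2, n3]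
    · by_cases q2 : q = k
      · subst q2; simp [Bb, b2, n1.symm, n3.symm, n2.symm, n1, n2, n3]
      · by_cases q3 : q = c
        · subst q3; simp [Bb, b2, n1.symm, n3.symm, n2.symm, n1, n2, n3]; norm_num
        · simp [Bb, b2, n1.symm, n3.symm, n2.symm, n1, n2, n3, q1, q2, q3]
  · by_cases hy2 : y = k
    · subst hy2
      rw [e3]
      by_cases q1 : q = a
      · subst q1; simp [Bb, b2, n1.symm, n3.symm, n1, n2, n3]
      · by_cases q2 : q = y
        · subst q2; simp [Bb, b2, n1.symm, n3.symm, n2.symm, n1, n2, n3]; norm_num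
        · by_cases q3 : q = c
          · subst q3; simp [Bb, b2, n1.symm, n3.symm, n2.symm, n1, n2, n3]
          · simp [Bb, b2, n1.symm, n3.symm, n2.symm, n1, n2, n3, q1, q2, q3]
    · by_cases hy3 : y = c
      · subst hy3
        rw [e1]
        by_cases q1 : q = a
        · subst q1; simp [Bb, b2, n1.symm, n3.symm, n1, n2, n3]
        · by_cases q2 : q = k
          · subst q2; simp [Bb, b2, n1.symm, n3.symm, n2.symm, n1, n2, n3]
          · by_cases q3 : q = y
            · subst q3; simp [Bb, b2, n1.symm, n3.symm, n2.symm, n1, n2, n3]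
            · simp [Bb, b2, n1.symm, n3.symm, n2.symm, n1, n2, n3, q1, q2, q3]
      · have e4 : (w321 u a c).symm (u y) = y := by
          rw [Equiv.symm_apply_eq, w321_o u hy hy3]
        rw [e4]
        by_cases hq : q = y
        · subst hq; simp [Bb, hy, hy2, hy3]
        · simp [Bb, hy, hy2, hy3, hq, Ne.symm hq]

/-- If `I_{u,v}` is homogeneous and `a < k < c` is a `123` pattern of `u`, then
`u·(a k c) ≤ v` implies `u·(a c) ≤ v`. -/
theorem obstruction {u v : Equiv.Perm (Fin n)} (h : Hom u v) {a k c : Fin n} (h12 : a < k)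
    (h23 : k < c) (g12 : u a < u k) (g23 : u k < u c) (hw : BruhatLE (w312 u a k c) v) :
    BruhatLE (w321 u a c) v := by
  have h1 : InX v (pt u (fun i => 1 * zpt u a k c i)) := by
    rw [pt_zpt u h12 h23 g12 g23, blk_one u h12 h23, ← mul_assoc]
    intro i j
    refine le_trans (rank_box_mul_le i j (upper_Ab g12 g23 _ _ _) (upper_Bb h12 h23 _)) ?_
    rw [rank_box_pm]
    exact hw i j
  have h2 : InX v (pt u (fun i => 2 * (1 * zpt u a k c i))) := h.scale h1 2
  have h3 : (fun i => (2 : ℂ) * (1 * zpt u a k c i)) = fun i => 2 * zpt u a k c i := by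
    funext i
    rw [one_mul]
  rw [h3, pt_zpt u h12 h23 g12 g23, blk_two u h12 h23, ← mul_assoc] at h2
  intro i j
  have h4 := h2 i j
  rw [rank_box_mul i j (upper_Ab g12 g23 _ _ _) (upper_Bb h12 h23 _)
    ((upper_Ab g12 g23 _ _ _).isUnit fun p => by rw [diag_Ab g12 g23]; exact one_ne_zero)
    ((upper_Bb h12 h23 _).isUnit fun p => diag_Bb h12 h23 (by simp [b2]) (by simp [b2])
      (by simp [b2]) p), rank_box_pm] at h4
  exact h4

end Pool.Agent.H30.KL
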