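import Pool.Agent.H30.KL.Fulton
import Pool.Agent.H30.KL.Obst

/-! # The permutations `u` (resp. `v`) for which every `I_{u,v}` is homogeneous -/

open MvPolynomial Matrix

namespace Pool.Agent.H30.KL

variable {n : ℕ}

/-- `u` avoids the pattern `123` -/
def Avoids123 (u : Equiv.Perm (Fin n)) : Prop :=
  ¬ ∃ a k c : Fin n, a < k ∧ k < c ∧ u a < u k ∧ u k < u c

/-- `v` avoids the pattern `312` -/
def Avoids312 (v : Equiv.Perm (Fin n)) : Prop :=
  ¬ ∃ a k c : Fin n, a < k ∧ k < c ∧ v k < v c ∧ v c < v a

/-- for a `123`-avoiding permutation all minors of `Z^{(u)}` are homogeneous -/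
theorem minor_hom {u : Equiv.Perm (Fin n)} (hu : Avoids123 u) {m : ℕ} {f g : Fin m → Fin n}
    (hf : Function.Injective f) (hg : Function.Injective g) :
    ∃ d, ((Zmat u).submatrix f g).det.IsHomogeneous d := by
  classical
  refine ⟨∑ b : Fin m, if ∃ a, f a = u (g b) then 0 else 1, ?_⟩
  rw [det_apply]
  apply IsHomogeneous.sum
  intro σ _
  have key : (∏ b : Fin m, ((Zmat u).submatrix f g) (σ b) b).IsHomogeneous
      (∑ b : Fin m, if ∃ a, f a = u (g b) then 0 else 1) := by
    by_cases hz : ∃ b, ((Zmat u).submatrix f g) (σ b) b = 0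
    · obtain ⟨b, hb⟩ := hz
      have h0 : (∏ b : Fin m, ((Zmat u).submatrix f g) (σ b) b) = 0 :=
        Finset.prod_eq_zero (Finset.mem_univ b) hb
      rw [h0]
      exact isHomogeneous_zero _ _ _
    push Not at hz
    -- every entry used is a `1` or an indeterminate
    have hent : ∀ b, u (g b) = f (σ b) ∨ (u (g b) < f (σ b) ∧ g b < u.symm (f (σ b))) := by
      intro b
      by_contra hcon
      push Not at hcon
      apply hz b
      rw [submatrix_apply, Zmat, of_apply, dif_neg (by
        rintro ⟨h1, h2⟩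
        exact absurd h2 (not_lt.2 (hcon.2 h1))), if_neg hcon.1]
    apply IsHomogeneous.prod
    intro b _
    rw [submatrix_apply, Zmat, of_apply]
    by_cases hex : ∃ a, f a = u (g b)
    · rw [if_pos hex]
      obtain ⟨a, ha⟩ := hex
      have hσ : σ b = a := by
        by_contra hσ
        rcases hent b with h1 | ⟨h1, h2⟩
        · exact hσ (hf (by rw [← h1, ha]))
        · obtain ⟨b', hb'⟩ := σ.surjective a
          have hbb : b' ≠ b := by
            rintro rfl
            exact hσ hb'
          rcases hent b' with h3 | ⟨h3, h4⟩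
          · rw [hb', ha] at h3
            exact hbb (hg (u.injective h3))
          · rw [hb', ha] at h3 h4
            rw [Equiv.symm_apply_apply] at h4
            exact hu ⟨g b', g b, u.symm (f (σ b)), h4, h2, h3, by simpa using h1⟩
      have h1 : ¬ (u (g b) < f (σ b) ∧ g b < u.symm (f (σ b))) := by
        rw [hσ, ha]
        exact fun h => lt_irrefl _ h.1
      rw [dif_neg h1, hσ, ha, if_pos rfl]
      exact isHomogeneous_one _ _
    · rw [if_neg hex]
      rcases hent b with h1 | h1
      · exact absurd ⟨_, h1.symm⟩ hex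
      · rw [dif_pos h1]
        exact isHomogeneous_X _ _
  rcases Int.units_eq_one_or (Equiv.Perm.sign σ) with h | h
  · rw [h, one_smul]; exact key
  · rw [h, Units.neg_smul, one_smul]; exact key.neg

attribute [local instance] MvPolynomial.gradedAlgebra

theorem hom_of_avoids123 {u : Equiv.Perm (Fin n)} (hu : Avoids123 u) (v : Equiv.Perm (Fin n)) :
    Hom u v := by
  rw [Hom, klIdeal]
  apply Ideal.homogeneous_span
  rintro x ⟨i, j, f, g, hf, hg, rfl⟩
  obtain ⟨d, hd⟩ := minor_hom hu f.injective g.injective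
  exact ⟨d, hd⟩

/-- the two permutations of the obstruction are different -/
theorem not_le_w {u : Equiv.Perm (Fin n)} {a k c : Fin n} (h12 : a < k) (h23 : k < c)
    (g12 : u a < u k) : ¬ BruhatLE (w321 u a c) (w312 u a k c) := by
  intro h
  have h1 := h (u k) k
  revert h1
  rw [imp_false, not_le]
  apply Finset.card_lt_card
  rw [Finset.ssubset_iff_of_subset]
  · refine ⟨k, ?_, ?_⟩
    · simp only [Finset.mem_filter, Finset.mem_univ, true_and, le_refl]
      rw [w321_k u h12 h23]
    · simp only [Finset.mem_filter, Finset.mem_univ, true_and, le_refl, not_le]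
      rw [w312_k u h12 h23]
      exact g12
  · intro q hq
    simp only [Finset.mem_filter, Finset.mem_univ, true_and] at hq ⊢
    refine ⟨hq.1, ?_⟩
    have hqc : q ≠ c := (lt_of_le_of_lt hq.1 h23).ne
    by_cases hqa : q = a
    · subst hqa
      rw [w321_a]
      rw [w312_a] at hq
      exact hq.2
    · rw [w321_o u hqa hqc]
      by_cases hqk : q = k
      · rw [hqk]
      · rw [w312_o u hqa hqk hqc] at hq
        exact hq.2

theorem bruhatLE_refl (v : Equiv.Perm (Fin n)) : BruhatLE v v := fun _ _ => le_rfl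

/-- if `u` contains `123` then `I_{u,v}` is not homogeneous for some `v` -/
theorem not_hom_w312 {u : Equiv.Perm (Fin n)} {a k c : Fin n} (h12 : a < k) (h23 : k < c)
    (g12 : u a < u k) (g23 : u k < u c) : ¬ Hom u (w312 u a k c) := fun h =>
  not_le_w h12 h23 g12 (obstruction h h12 h23 g12 g23 (bruhatLE_refl _))

/-- **Theorem.** `I_{u,v}` is homogeneous for every `v` iff `u` avoids `123`. -/
theorem forall_v_iff (u : Equiv.Perm (Fin n)) : (∀ v, Hom u v) ↔ Avoids123 u := by
  constructor
  · rintro h ⟨a, k, c, h12, h23, g12, g23⟩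
    exact not_hom_w312 h12 h23 g12 g23 (h _)
  · exact fun h v => hom_of_avoids123 h v

/-- for `312`-avoiding `v` the rank conditions on the diagram are `0` -/
theorem rk_zero {v : Equiv.Perm (Fin n)} (hv : Avoids312 v) {i j : Fin n} (hD : Dia v i j) :
    rk v i j = 0 := by
  rw [rk, Finset.card_eq_zero, Finset.filter_eq_empty_iff]
  rintro k - ⟨h1, h2⟩
  have h3 : k ≠ j := by
    rintro rfl
    exact absurd hD.1 (not_lt.2 h2)
  have h4 : v k ≠ i := by
    rintro rfl
    have := hD.2
    rw [Equiv.symm_apply_apply] at this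
    exact absurd this (not_lt.2 h1)
  exact hv ⟨k, j, v.symm i, lt_of_le_of_ne h1 h3, hD.2, by simpa using hD.1,
    by simpa using lt_of_le_of_ne h2 h4.symm⟩

theorem hom_of_avoids312 {v : Equiv.Perm (Fin n)} (hv : Avoids312 v) (u : Equiv.Perm (Fin n)) :
    Hom u v := by
  apply hom_of_dia
  intro i j hD m f g hm _ _
  rw [rk_zero hv hD] at hm
  subst hm
  rw [det_fin_one]
  exact Zmat_hom u _ _

/-- **Theorem.** `I_{u,v}` is homogeneous for every `u` iff `v` avoids `312`. -/
theorem forall_u_iff (v : Equiv.Perm (Fin n)) : (∀ u, Hom u v) ↔ Avoids312 v := by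
  constructor
  · rintro h ⟨a, k, c, h12, h23, g1, g2⟩
    set u : Equiv.Perm (Fin n) := v * (Equiv.swap k c * Equiv.swap a k)⁻¹ with hu
    have hw : w312 u a k c = v := by
      rw [w312, hu, inv_mul_cancel_right]
    have e1 : u c = v a := by rw [← hw, w312_a]
    have e2 : u a = v k := by rw [← hw, w312_k u h12 h23]
    have e3 : u k = v c := by rw [← hw, w312_c u h12 h23]
    have := not_hom_w312 (u := u) h12 h23 (by rw [e2, e3]; exact g1) (by rw [e3, e1]; exact g2)
    rw [hw] at this
    exact this (h u)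
  · exact fun h u => hom_of_avoids312 h u

end Pool.Agent.H30.KL
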