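import Mathlib

/-!
# Kazhdan–Lusztig ideals: definitions (MP_a7460d_ag)

Rows and columns are indexed by `Fin n` (`0, …, n - 1` instead of `1, …, n`).
-/

open MvPolynomial

namespace Pool.Agent.H30.KL

variable {n : ℕ}

/-- The positions `(r, c)` of the indeterminates of `Z^{(u)}`: strictly below the `1` of column `c`
and strictly to the left of the `1` of row `r`. -/
abbrev Free (u : Equiv.Perm (Fin n)) : Type :=
  {p : Fin n × Fin n // u p.2 < p.1 ∧ p.2 < u.symm p.1}

/-- The matrix `Z^{(u)}`: the entry `(u c, c)` is `1`, the entries above a `1` or to the right of a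
`1` are `0`, the others are independent indeterminates. -/
noncomputable def Zmat (u : Equiv.Perm (Fin n)) : Matrix (Fin n) (Fin n) (MvPolynomial (Free u) ℂ) :=
  Matrix.of fun r c =>
    if h : u c < r ∧ c < u.symm r then X ⟨(r, c), h⟩ else if u c = r then 1 else 0

/-- `r_v(i,j) = #{k ≤ j : v(k) ≥ i}`. -/
def rk (v : Equiv.Perm (Fin n)) (i j : Fin n) : ℕ :=
  (Finset.univ.filter fun k => k ≤ j ∧ i ≤ v k).card

/-- The Kazhdan–Lusztig ideal `I_{u,v}`, generated by the minors of size `r_v(i,j) + 1` of the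
submatrices of `Z^{(u)}` on the rows `≥ i` and the columns `≤ j`. -/
noncomputable def klIdeal (u v : Equiv.Perm (Fin n)) : Ideal (MvPolynomial (Free u) ℂ) :=
  Ideal.span {x | ∃ (i j : Fin n) (f g : Fin (rk v i j + 1) ↪o Fin n),
    (∀ a, i ≤ f a) ∧ (∀ b, g b ≤ j) ∧ x = ((Zmat u).submatrix f g).det}

attribute [local instance] MvPolynomial.gradedAlgebra

/-- `I_{u,v}` is homogeneous for the standard grading. -/
def Hom (u v : Equiv.Perm (Fin n)) : Prop :=
  (klIdeal u v).IsHomogeneous (homogeneousSubmodule (Free u) ℂ)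

/-- `(i,j)` lies in the diagram `D(v)`. -/
def Dia (v : Equiv.Perm (Fin n)) (i j : Fin n) : Prop := v j < i ∧ j < v.symm i

/-- `(i,j)` lies in the essential set of `v`: it lies in `D(v)`, but `(i-1,j)` and `(i,j+1)` do
not. -/
def Ess (v : Equiv.Perm (Fin n)) (i j : Fin n) : Prop :=
  Dia v i j ∧ (∀ i' : Fin n, (i' : ℕ) + 1 = i → ¬ Dia v i' j) ∧
    ∀ j' : Fin n, (j' : ℕ) = j + 1 → ¬ Dia v i j'

/-- `u ≤ v` in Bruhat order. -/
def BruhatLE (u v : Equiv.Perm (Fin n)) : Prop := ∀ i j, rk u i j ≤ rk v i j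

end Pool.Agent.H30.KL
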