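import Pool.Agent.H30.KL.Basic

/-! # The minors of the boxes in the diagram generate the ideal -/

open MvPolynomial Matrix

namespace Pool.Agent.H30.KL

variable {n : ℕ}

/-- arbitrary sequences of rows and columns may be used -/
theorem det_mem_klIdeal (u v : Equiv.Perm (Fin n)) {i j : Fin n} {m : ℕ} (hm : m = rk v i j + 1)
    (f g : Fin m → Fin n) (hf : ∀ a, i ≤ f a) (hg : ∀ b, g b ≤ j) :
    ((Zmat u).submatrix f g).det ∈ klIdeal u v := by
  subst hm
  by_cases hfi : Function.Injective f
  swap
  · rw [Function.Injective] at hfi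
    push Not at hfi
    obtain ⟨a, b, hab, hne⟩ := hfi
    rw [det_zero_of_row_eq hne (by funext x; simp [submatrix, hab])]
    exact Ideal.zero_mem _
  by_cases hgi : Function.Injective g
  swap
  · rw [Function.Injective] at hgi
    push Not at hgi
    obtain ⟨a, b, hab, hne⟩ := hgi
    rw [det_zero_of_column_eq hne (by intro x; simp [submatrix, hab])]
    exact Ideal.zero_mem _
  set σ := Tuple.sort f
  set τ := Tuple.sort g
  have hfs : StrictMono (f ∘ σ) :=
    (Tuple.monotone_sort f).strictMono_of_injective (hfi.comp σ.injective)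
  have hgs : StrictMono (g ∘ τ) :=
    (Tuple.monotone_sort g).strictMono_of_injective (hgi.comp τ.injective)
  have h1 : ((Zmat u).submatrix (f ∘ σ) (g ∘ τ)).det ∈ klIdeal u v :=
    Ideal.subset_span ⟨i, j, OrderEmbedding.ofStrictMono _ hfs, OrderEmbedding.ofStrictMono _ hgs,
      fun a => hf _, fun b => hg _, rfl⟩
  have h2 : (Zmat u).submatrix (f ∘ σ) (g ∘ τ) =
      (((Zmat u).submatrix f g).submatrix σ id).submatrix id τ := by
    ext x y
    rfl
  rw [h2, det_permute', det_permute] at h1
  have h3 : ∀ (s : ℤˣ) (x : MvPolynomial (Free u) ℂ),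
      ((s : ℤ) : MvPolynomial (Free u) ℂ) * x ∈ klIdeal u v → x ∈ klIdeal u v := by
    intro s x hx
    rcases Int.units_eq_one_or s with rfl | rfl
    · simpa using hx
    · simpa using hx
  exact h3 _ _ (h3 _ _ h1)

/-- the ideal generated by the minors of the boxes in the diagram -/
noncomputable def diaIdeal (u v : Equiv.Perm (Fin n)) : Ideal (MvPolynomial (Free u) ℂ) :=
  Ideal.span {x | ∃ (i j : Fin n) (m : ℕ) (f g : Fin m → Fin n), Dia v i j ∧ m = rk v i j + 1 ∧
    (∀ a, i ≤ f a) ∧ (∀ b, g b ≤ j) ∧ x = ((Zmat u).submatrix f g).det}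

theorem rk_succ_col (v : Equiv.Perm (Fin n)) {i j j' : Fin n} (h : i ≤ v j)
    (hj : (j' : ℕ) + 1 = j) : rk v i j = rk v i j' + 1 := by
  have h1 : (Finset.univ.filter fun k => k ≤ j ∧ i ≤ v k) =
      insert j (Finset.univ.filter fun k => k ≤ j' ∧ i ≤ v k) := by
    ext k
    simp only [Finset.mem_filter, Finset.mem_univ, true_and, Finset.mem_insert]
    constructor
    · rintro ⟨h1, h2⟩
      by_cases hk : k = j
      · exact Or.inl hk
      · right
        refine ⟨?_, h2⟩
        rw [Fin.le_def] at h1 ⊢
        have : (k : ℕ) ≠ j := fun h => hk (Fin.ext h)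
        omega
    · rintro (rfl | ⟨h1, h2⟩)
      · exact ⟨le_rfl, h⟩
      · refine ⟨?_, h2⟩
        rw [Fin.le_def] at h1 ⊢
        omega
  rw [rk, h1, Finset.card_insert_of_notMem, rk]
  simp only [Finset.mem_filter, Finset.mem_univ, true_and, not_and]
  intro h2
  rw [Fin.le_def] at h2
  omega

theorem rk_succ_row (v : Equiv.Perm (Fin n)) {i j i' : Fin n} (h : v.symm i ≤ j)
    (hi : (i : ℕ) + 1 = i') : rk v i j = rk v i' j + 1 := by
  have h1 : (Finset.univ.filter fun k => k ≤ j ∧ i ≤ v k) =
      insert (v.symm i) (Finset.univ.filter fun k => k ≤ j ∧ i' ≤ v k) := by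
    ext k
    simp only [Finset.mem_filter, Finset.mem_univ, true_and, Finset.mem_insert]
    constructor
    · rintro ⟨h1, h2⟩
      by_cases hk : v k = i
      · left; rw [← hk]; simp
      · right
        refine ⟨h1, ?_⟩
        rw [Fin.le_def] at h2 ⊢
        have : (v k : ℕ) ≠ i := fun h => hk (Fin.ext h)
        omega
    · rintro (rfl | ⟨h1, h2⟩)
      · exact ⟨h, by simp⟩
      · refine ⟨h1, ?_⟩
        rw [Fin.le_def] at h2 ⊢
        omega
  rw [rk, h1, Finset.card_insert_of_notMem, rk]
  simp only [Finset.mem_filter, Finset.mem_univ, true_and, not_and, Equiv.apply_symm_apply]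
  intro _ h2
  rw [Fin.le_def] at h2
  omega

/-- a minor of an arbitrary box is in the ideal of the diagram boxes -/
theorem det_mem_diaIdeal (u v : Equiv.Perm (Fin n)) : ∀ (N : ℕ) (i j : Fin n),
    (n - i) + j ≤ N → ∀ (m : ℕ) (f g : Fin m → Fin n), m = rk v i j + 1 → (∀ a, i ≤ f a) →
      (∀ b, g b ≤ j) → ((Zmat u).submatrix f g).det ∈ diaIdeal u v := by
  intro N
  induction N with
  | zero =>
    intro i j h
    have := i.isLt
    omega
  | succ N ih =>
    intro i j hN m f g hm hf hg
    by_cases hD : Dia v i j
    · exact Ideal.subset_span ⟨i, j, m, f, g, hD, hm, hf, hg, rfl⟩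
    rw [Dia, not_and_or, not_lt, not_lt] at hD
    have hi := i.isLt
    rcases hD with hD | hD
    · -- the last column contains a one
      rcases Nat.eq_zero_or_pos (j : ℕ) with hj | hj
      · -- only one column
        have h1 : 1 ≤ rk v i j := by
          rw [rk, Nat.one_le_iff_ne_zero, ← Nat.pos_iff_ne_zero, Finset.card_pos]
          exact ⟨j, by simp [hD]⟩
        have h2 : (⟨0, by omega⟩ : Fin m) ≠ ⟨1, by omega⟩ := by simp
        have hgc : ∀ b, g b = j := by
          intro b
          have := hg b
          rw [Fin.le_def] at this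
          exact Fin.ext (by omega)
        rw [det_zero_of_column_eq h2 (by intro x; simp [submatrix, hgc])]
        exact Ideal.zero_mem _
      · obtain ⟨j', hj'⟩ : ∃ j' : Fin n, (j' : ℕ) + 1 = j := ⟨⟨j - 1, by omega⟩, by simp; omega⟩
        have hr := rk_succ_col v hD hj'
        have key : ∀ b : Fin m, (∀ b' : Fin m, b' ≠ b → g b' ≤ j') →
            ((Zmat u).submatrix f g).det ∈ diaIdeal u v := by
          intro b hb
          obtain ⟨m', rfl⟩ : ∃ m', m = m' + 1 := ⟨rk v i j, hm⟩
          rw [det_succ_column _ b]
          apply Ideal.sum_mem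
          intro a _
          apply Ideal.mul_mem_left
          rw [submatrix_submatrix]
          apply ih i j' (by omega) m' _ _ (by omega)
          · intro x; exact hf _
          · intro x; exact hb _ (Fin.succAbove_ne b x)
        by_cases hex : ∃ b, g b = j
        · obtain ⟨b, hb⟩ := hex
          by_cases huniq : ∀ b' : Fin m, b' ≠ b → g b' ≤ j'
          · exact key b huniq
          · push Not at huniq
            obtain ⟨b', hb', hlt⟩ := huniq
            have : g b' = j := by
              have h3 := hg b'
              rw [Fin.le_def] at h3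
              rw [Fin.lt_def] at hlt
              exact Fin.ext (by omega)
            rw [det_zero_of_column_eq hb' (by intro x; simp [submatrix, hb, this])]
            exact Ideal.zero_mem _
        · push Not at hex
          apply key ⟨0, by omega⟩
          intro b' _
          have h3 := hg b'
          have h4 := hex b'
          rw [Fin.le_def] at h3 ⊢
          have : (g b' : ℕ) ≠ j := fun h => h4 (Fin.ext h)
          omega
    · -- the first row contains a one
      by_cases hi' : (i : ℕ) + 1 = n
      · have h1 : 1 ≤ rk v i j := by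
          rw [rk, Nat.one_le_iff_ne_zero, ← Nat.pos_iff_ne_zero, Finset.card_pos]
          exact ⟨v.symm i, by simp [hD]⟩
        have h2 : (⟨0, by omega⟩ : Fin m) ≠ ⟨1, by omega⟩ := by simp
        have hfc : ∀ b, f b = i := by
          intro b
          have := hf b
          rw [Fin.le_def] at this
          exact Fin.ext (by have := (f b).isLt; omega)
        rw [det_zero_of_row_eq h2 (by funext x; simp [submatrix, hfc])]
        exact Ideal.zero_mem _
      · obtain ⟨i', hi'⟩ : ∃ i' : Fin n, (i : ℕ) + 1 = i' := ⟨⟨i + 1, by omega⟩, rfl⟩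
        have hr := rk_succ_row v hD hi'
        have key : ∀ b : Fin m, (∀ b' : Fin m, b' ≠ b → i' ≤ f b') →
            ((Zmat u).submatrix f g).det ∈ diaIdeal u v := by
          intro b hb
          obtain ⟨m', rfl⟩ : ∃ m', m = m' + 1 := ⟨rk v i j, hm⟩
          rw [det_succ_row _ b]
          apply Ideal.sum_mem
          intro a _
          apply Ideal.mul_mem_left
          rw [submatrix_submatrix]
          apply ih i' j (by omega) m' _ _ (by omega)
          · intro x; exact hb _ (Fin.succAbove_ne b x)
          · intro x; exact hg _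
        by_cases hex : ∃ b, f b = i
        · obtain ⟨b, hb⟩ := hex
          by_cases huniq : ∀ b' : Fin m, b' ≠ b → i' ≤ f b'
          · exact key b huniq
          · push Not at huniq
            obtain ⟨b', hb', hlt⟩ := huniq
            have : f b' = i := by
              have h3 := hf b'
              rw [Fin.le_def] at h3
              rw [Fin.lt_def] at hlt
              exact Fin.ext (by omega)
            rw [det_zero_of_row_eq hb' (by funext x; simp [submatrix, hb, this])]
            exact Ideal.zero_mem _
        · push Not at hex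
          apply key ⟨0, by omega⟩
          intro b' _
          have h3 := hf b'
          have h4 := hex b'
          rw [Fin.le_def] at h3 ⊢
          have : (f b' : ℕ) ≠ i := fun h => h4 (Fin.ext h)
          omega

theorem klIdeal_eq (u v : Equiv.Perm (Fin n)) : klIdeal u v = diaIdeal u v := by
  apply le_antisymm
  · rw [klIdeal, Ideal.span_le]
    rintro x ⟨i, j, f, g, hf, hg, rfl⟩
    exact det_mem_diaIdeal u v _ i j le_rfl _ f g rfl hf hg
  · rw [diaIdeal, Ideal.span_le]
    rintro x ⟨i, j, m, f, g, -, hm, hf, hg, rfl⟩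
    exact det_mem_klIdeal u v hm f g hf hg

attribute [local instance] MvPolynomial.gradedAlgebra

/-- if the minors of the diagram boxes are homogeneous polynomials, so is the ideal -/
theorem hom_of_dia {u v : Equiv.Perm (Fin n)}
    (h : ∀ (i j : Fin n), Dia v i j → ∀ (m : ℕ) (f g : Fin m → Fin n), m = rk v i j + 1 →
      (∀ a, i ≤ f a) → (∀ b, g b ≤ j) → ∃ d, ((Zmat u).submatrix f g).det.IsHomogeneous d) :
    Hom u v := by
  rw [Hom, klIdeal_eq]
  apply Ideal.homogeneous_span
  rintro x ⟨i, j, m, f, g, hD, hm, hf, hg, rfl⟩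
  obtain ⟨d, hd⟩ := h i j hD m f g hm hf hg
  exact ⟨d, hd⟩

/-- entries are homogeneous -/
theorem Zmat_hom (u : Equiv.Perm (Fin n)) (r c : Fin n) :
    ∃ d, (Zmat u r c).IsHomogeneous d := by
  rw [Zmat, of_apply]
  split_ifs
  · exact ⟨1, isHomogeneous_X _ _⟩
  · exact ⟨0, isHomogeneous_one _ _⟩
  · exact ⟨0, isHomogeneous_zero _ _ _⟩

end Pool.Agent.H30.KL
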