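import Pool.Agent.H30.KL.Fulton
import Pool.Agent.H30.KL.Obst

/-! # The case `u = id` -/

open MvPolynomial Matrix

namespace Pool.Agent.H30.KL

variable {n : ℕ}

/-- `x (x - 1) ⋯ (x - p + 1)` -/
noncomputable def Pp (p : ℕ) : Polynomial ℂ :=
  ∏ l ∈ Finset.range p, (Polynomial.X - Polynomial.C (l : ℂ))

theorem Pp_monic (p : ℕ) : (Pp p).Monic := Polynomial.monic_prod_of_monic _ _ fun l _ =>
  Polynomial.monic_X_sub_C _

theorem Pp_natDegree (p : ℕ) : (Pp p).natDegree = p := by
  rw [Pp, Polynomial.natDegree_prod_of_monic _ _ fun l _ => Polynomial.monic_X_sub_C _]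
  simp only [Polynomial.natDegree_X_sub_C, Finset.sum_const, Finset.card_range, smul_eq_mul,
    mul_one]

theorem Pp_eval_zero {p q : ℕ} (h : q < p) : (Pp p).eval (q : ℂ) = 0 := by
  rw [Pp, Polynomial.eval_prod]
  apply Finset.prod_eq_zero (Finset.mem_range.2 h)
  simp

theorem Pp_eval_ne {p q : ℕ} (h : p ≤ q) : (Pp p).eval (q : ℂ) ≠ 0 := by
  rw [Pp, Polynomial.eval_prod, Finset.prod_ne_zero_iff]
  intro l hl
  have h1 := Finset.mem_range.1 hl
  simp only [Polynomial.eval_sub, Polynomial.eval_X, Polynomial.eval_C]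
  rw [sub_ne_zero]
  intro h2
  have : (q : ℕ) = l := by exact_mod_cast h2
  omega

/-- the matrix `x^(p)` at the integers -/
noncomputable def Amat (n : ℕ) : Matrix (Fin n) (Fin n) ℂ :=
  Matrix.of fun p q => (Pp p).eval ((q : ℕ) : ℂ)

theorem upper_Amat : Upper (Amat n) := fun _ _ h => Pp_eval_zero h

theorem isUnit_Amat : IsUnit (Amat n) := upper_Amat.isUnit fun _ => Pp_eval_ne le_rfl

/-- the nodes -/
def sv (v : Equiv.Perm (Fin n)) (q : Fin n) : ℂ := ((v q : ℕ) : ℂ)

theorem sv_inj (v : Equiv.Perm (Fin n)) : Function.Injective (sv v) := by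
  intro a b h
  have : ((v a : ℕ) : ℂ) = ((v b : ℕ) : ℂ) := h
  have h2 : (v a : ℕ) = v b := by exact_mod_cast this
  exact v.injective (Fin.ext h2)

/-- the matrix of divided differences -/
noncomputable def Bmat (v : Equiv.Perm (Fin n)) : Matrix (Fin n) (Fin n) ℂ :=
  Matrix.of fun q' q => if q' ≤ q then (∏ l ∈ (Finset.Iic q).erase q', (sv v q' - sv v l))⁻¹ else 0

theorem Bmat_of_not_le (v : Equiv.Perm (Fin n)) {q' q : Fin n} (h : ¬ q' ≤ q) :
    Bmat v q' q = 0 := by
  rw [Bmat, of_apply, if_neg h]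

theorem Bmat_ne (v : Equiv.Perm (Fin n)) {q' q : Fin n} (h : q' ≤ q) : Bmat v q' q ≠ 0 := by
  rw [Bmat, of_apply, if_pos h]
  apply inv_ne_zero
  rw [Finset.prod_ne_zero_iff]
  intro l hl
  rw [sub_ne_zero]
  intro h1
  exact (Finset.mem_erase.1 hl).1 (sv_inj v h1).symm

theorem upper_Bmat (v : Equiv.Perm (Fin n)) : Upper (Bmat v) := fun _ _ h =>
  Bmat_of_not_le v (not_le.2 h)

theorem isUnit_Bmat (v : Equiv.Perm (Fin n)) : IsUnit (Bmat v) :=
  (upper_Bmat v).isUnit fun _ => Bmat_ne v le_rfl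

/-- the point of the Kazhdan–Lusztig variety -/
noncomputable def Zv (v : Equiv.Perm (Fin n)) : Matrix (Fin n) (Fin n) ℂ :=
  Amat n * (pm v * Bmat v)

theorem Zv_apply (v : Equiv.Perm (Fin n)) (p q : Fin n) :
    Zv v p q = ∑ q' ∈ Finset.Iic q, (Pp p).eval (sv v q') /
      ∏ l ∈ (Finset.Iic q).erase q', (sv v q' - sv v l) := by
  rw [Zv, mul_apply]
  simp only [pm_mul]
  rw [← Equiv.sum_comp v]
  simp only [Equiv.symm_apply_apply]
  rw [← Finset.sum_subset (Finset.subset_univ (Finset.Iic q))]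
  · apply Finset.sum_congr rfl
    intro q' hq'
    rw [Bmat, of_apply, if_pos (Finset.mem_Iic.1 hq'), div_eq_mul_inv]
    rfl
  · intro q' _ hq'
    rw [Bmat_of_not_le v (fun h => hq' (Finset.mem_Iic.2 h)), mul_zero]

theorem Zv_coeff (v : Equiv.Perm (Fin n)) (p q : Fin n) (Q : Polynomial ℂ)
    (hQ : Q.degree < ((q : ℕ) + 1 : ℕ)) (hev : ∀ l ∈ Finset.Iic q, Q.eval (sv v l) =
      (Pp p).eval (sv v l)) : Zv v p q = Q.coeff q := by
  have hcard : (Finset.Iic q).card = (q : ℕ) + 1 := Fin.card_Iic q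
  have h := Lagrange.coeff_eq_sum (s := Finset.Iic q) (v := sv v) (sv_inj v).injOn (P := Q)
    (by rw [hcard]; exact hQ)
  rw [hcard, Nat.add_sub_cancel] at h
  rw [h, Zv_apply]
  apply Finset.sum_congr rfl
  intro l hl
  rw [hev l hl]

theorem Zv_lt (v : Equiv.Perm (Fin n)) {p q : Fin n} (h : p < q) : Zv v p q = 0 := by
  rw [Zv_coeff v p q (Pp p) _ fun _ _ => rfl]
  · apply Polynomial.coeff_eq_zero_of_natDegree_lt
    rw [Pp_natDegree]
    exact h
  · rw [Polynomial.degree_eq_natDegree (Pp_monic p).ne_zero, Pp_natDegree]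
    have : (p : ℕ) < (q : ℕ) + 1 := by
      rw [Fin.lt_def] at h
      omega
    exact_mod_cast this

theorem Zv_diag (v : Equiv.Perm (Fin n)) (p : Fin n) : Zv v p p = 1 := by
  rw [Zv_coeff v p p (Pp p) _ fun _ _ => rfl]
  · have := (Pp_monic (p : ℕ)).coeff_natDegree
    rwa [Pp_natDegree] at this
  · rw [Polynomial.degree_eq_natDegree (Pp_monic p).ne_zero, Pp_natDegree]
    exact_mod_cast Nat.lt_succ_self _

/-- `Σ_{l ≤ j} v(l) > Σ_{l ≤ j} l` if `v` does not preserve the first `j + 1` elements -/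
theorem sum_lt (v : Equiv.Perm (Fin n)) {i j : Fin n} (hij : i ≤ j) (hi : j < v.symm i) :
    ∑ l ∈ Finset.range ((j : ℕ) + 1), l < ∑ l ∈ Finset.Iic j, (v l : ℕ) := by
  set S : Finset ℕ := (Finset.Iic j).image fun l => (v l : ℕ) with hS
  have hinj : Set.InjOn (fun l => (v l : ℕ)) (Finset.Iic j : Finset (Fin n)) := by
    intro a _ b _ h
    exact v.injective (Fin.ext h)
  have hsum : ∑ l ∈ Finset.Iic j, (v l : ℕ) = ∑ x ∈ S, x := by
    rw [hS, Finset.sum_image hinj]
  have hcard : S.card = (j : ℕ) + 1 := by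
    rw [hS, Finset.card_image_of_injOn hinj, Fin.card_Iic]
  set R := Finset.range ((j : ℕ) + 1) with hR
  have hRc : R.card = (j : ℕ) + 1 := Finset.card_range _
  have hiR : (i : ℕ) ∈ R \ S := by
    rw [Finset.mem_sdiff]
    refine ⟨Finset.mem_range.2 (by rw [Fin.le_def] at hij; omega), ?_⟩
    intro h
    obtain ⟨l, hl, hl2⟩ := Finset.mem_image.1 h
    have : v l = i := Fin.ext hl2
    rw [← this, Equiv.symm_apply_apply] at hi
    exact absurd (Finset.mem_Iic.1 hl) (not_le.2 hi)
  have h1 : (R \ S).card = (S \ R).card := by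
    have e1 := Finset.card_sdiff_add_card_inter R S
    have e2 := Finset.card_sdiff_add_card_inter S R
    rw [Finset.inter_comm] at e2
    omega
  have h2 : 0 < (R \ S).card := Finset.card_pos.2 ⟨_, hiR⟩
  have h3 : ∑ x ∈ R \ S, x ≤ (R \ S).card * j := by
    have := Finset.sum_le_card_nsmul (R \ S) (fun x => x) (j : ℕ) (by
      intro x hx
      have := Finset.mem_range.1 (Finset.mem_sdiff.1 hx).1
      omega)
    rwa [smul_eq_mul] at this
  have h4 : (S \ R).card * ((j : ℕ) + 1) ≤ ∑ x ∈ S \ R, x := by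
    have := Finset.card_nsmul_le_sum (S \ R) (fun x => x) ((j : ℕ) + 1) (by
      intro x hx
      have := (Finset.mem_sdiff.1 hx).2
      rw [hR, Finset.mem_range] at this
      omega)
    rwa [smul_eq_mul] at this
  have h5 : ∑ x ∈ R, x = ∑ x ∈ R \ S, x + ∑ x ∈ R ∩ S, x := by
    rw [← Finset.sum_union (Finset.disjoint_sdiff_inter R S), Finset.sdiff_union_inter]
  have h6 : ∑ x ∈ S, x = ∑ x ∈ S \ R, x + ∑ x ∈ R ∩ S, x := by
    rw [Finset.inter_comm, ← Finset.sum_union (Finset.disjoint_sdiff_inter S R),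
      Finset.sdiff_union_inter]
  rw [hsum, h5, h6]
  rw [← h1] at h4
  nlinarith

/-- the entry below the diagonal -/
theorem Zv_sub (v : Equiv.Perm (Fin n)) {j j1 : Fin n} (hj : (j : ℕ) + 1 = j1) :
    Zv v j1 j = ((∑ l ∈ Finset.Iic j, (v l : ℕ) : ℕ) : ℂ) -
      ((∑ l ∈ Finset.range ((j : ℕ) + 1), l : ℕ) : ℂ) := by
  set N : Polynomial ℂ := ∏ l ∈ Finset.Iic j, (Polynomial.X - Polynomial.C (sv v l)) with hN
  have hNm : N.Monic := Polynomial.monic_prod_of_monic _ _ fun l _ => Polynomial.monic_X_sub_C _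
  have hNd : N.natDegree = (j : ℕ) + 1 := by
    rw [hN, Polynomial.natDegree_prod_of_monic _ _ fun l _ => Polynomial.monic_X_sub_C _]
    simp
  have hP : (Pp j1).natDegree = (j : ℕ) + 1 := by rw [Pp_natDegree, hj]
  have hNe : N.degree = ((j : ℕ) + 1 : ℕ) := by
    rw [Polynomial.degree_eq_natDegree hNm.ne_zero, hNd]
  have hPe : (Pp j1).degree = ((j : ℕ) + 1 : ℕ) := by
    rw [Polynomial.degree_eq_natDegree (Pp_monic _).ne_zero, hP]
  rw [Zv_coeff v j1 j (Pp j1 - N)]
  · rw [Polynomial.coeff_sub]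
    have e1 : (Pp j1).coeff j = -∑ l ∈ Finset.range ((j : ℕ) + 1), (l : ℂ) := by
      have := Polynomial.prod_X_sub_C_nextCoeff (s := Finset.range ((j : ℕ) + 1))
        (fun l : ℕ => (l : ℂ))
      rw [← this]
      have h2 : ∏ i ∈ Finset.range ((j : ℕ) + 1), (Polynomial.X - Polynomial.C ((i : ℕ) : ℂ)) =
          Pp j1 := by rw [Pp, hj]
      rw [h2, Polynomial.nextCoeff_of_natDegree_pos (by rw [hP]; omega), hP]
      rfl
    have e2 : N.coeff j = -∑ l ∈ Finset.Iic j, sv v l := by
      rw [← Polynomial.prod_X_sub_C_nextCoeff (s := Finset.Iic j) (sv v), ← hN,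
        Polynomial.nextCoeff_of_natDegree_pos (by rw [hNd]; omega), hNd]
      rfl
    rw [e1, e2]
    push_cast
    simp only [sv]
    ring
  · rw [← hPe]
    apply Polynomial.degree_sub_lt
    · rw [hPe, hNe]
    · exact (Pp_monic _).ne_zero
    · rw [(Pp_monic _).leadingCoeff, hNm.leadingCoeff]
  · intro l hl
    rw [Polynomial.eval_sub]
    have : N.eval (sv v l) = 0 := by
      rw [hN, Polynomial.eval_prod]
      apply Finset.prod_eq_zero hl
      simp
    rw [this, sub_zero]

theorem Amat_mul_Bmat_one : Amat n * Bmat (1 : Equiv.Perm (Fin n)) = 1 := by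
  have h1 : Zv (1 : Equiv.Perm (Fin n)) = Amat n * Bmat 1 := by
    rw [Zv]
    congr 1
    ext p q
    rw [pm_mul]
    rfl
  rw [← h1]
  ext p q
  rcases lt_trichotomy p q with h | h | h
  · rw [Zv_lt _ h, one_apply_ne h.ne]
  · subst h
    rw [Zv_diag, one_apply_eq]
  · rw [h1, (upper_Amat.mul (upper_Bmat 1)) p q h, one_apply_ne h.ne']

theorem Bmat_one_mul_Amat : Bmat (1 : Equiv.Perm (Fin n)) * Amat n = 1 :=
  mul_eq_one_comm.1 Amat_mul_Bmat_one

/-! ### the argument -/

/-- the lower unitriangular matrix as a point of the cell of `id` -/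
theorem pt_one_of_lower {L : Matrix (Fin n) (Fin n) ℂ} (h1 : ∀ p q, p < q → L p q = 0)
    (h2 : ∀ p, L p p = 1) (t : ℂ) : pt 1 (fun x : Free (1 : Equiv.Perm (Fin n)) =>
      t * L x.1.1 x.1.2) = Matrix.of fun p q => if q < p then t * L p q else if p = q then 1
        else 0 := by
  ext p q
  rw [pt_apply, of_apply]
  by_cases h : q < p
  · rw [dif_pos ⟨h, h⟩, if_pos h]
  · rw [dif_neg (fun h' => h h'.1), if_neg h, Equiv.Perm.one_apply]
    by_cases h3 : q = p
    · rw [if_pos h3, if_pos h3.symm]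
    · rw [if_neg h3, if_neg (Ne.symm h3)]

theorem of_lower {L : Matrix (Fin n) (Fin n) ℂ} (h1 : ∀ p q, p < q → L p q = 0)
    (h2 : ∀ p, L p p = 1) : (Matrix.of fun p q => if q < p then (1 : ℂ) * L p q else
      if p = q then 1 else 0) = L := by
  ext p q
  rw [of_apply]
  rcases lt_trichotomy p q with h | h | h
  · rw [if_neg (not_lt.2 h.le), if_neg h.ne, h1 p q h]
  · subst h
    rw [if_neg (lt_irrefl _), if_pos rfl, h2]
  · rw [if_pos h, one_mul]

theorem inX_scale {v : Equiv.Perm (Fin n)} (h : Hom 1 v) {L : Matrix (Fin n) (Fin n) ℂ}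
    (h1 : ∀ p q, p < q → L p q = 0) (h2 : ∀ p, L p p = 1) (hL : InX v L) (t : ℂ) :
    InX v (Matrix.of fun p q => if q < p then t * L p q else if p = q then 1 else 0) := by
  have e1 := pt_one_of_lower h1 h2 1
  rw [of_lower h1 h2] at e1
  have h3 : InX v (pt 1 (fun x : Free (1 : Equiv.Perm (Fin n)) => 1 * L x.1.1 x.1.2)) := by
    rw [e1]; exact hL
  have h4 := h.scale h3 t
  have e2 : (fun i : Free (1 : Equiv.Perm (Fin n)) => t * (1 * L i.1.1 i.1.2)) =
      fun i => t * L i.1.1 i.1.2 := by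
    funext i
    rw [one_mul]
  rw [e2, pt_one_of_lower h1 h2 t] at h4
  exact h4

/-- adding a multiple of a diagonal unit does not increase the rank -/
theorem range_of_rank {Y : Matrix (Fin n) (Fin n) ℂ} {j : Fin n} {β : ℂ} (hβ : β ≠ 0)
    (hr : (Y + Matrix.single j j β).rank ≤ Y.rank) {x : Fin n → ℂ} (hx : Y *ᵥ x = 0)
    (hxj : x j ≠ 0) : ∃ w, Y *ᵥ w = Pi.single j 1 := by
  set Y' := Y + Matrix.single j j β with hY'
  have hsingle : ∀ w : Fin n → ℂ, Matrix.single j j β *ᵥ w = Pi.single j (β * w j) := by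
    intro w
    ext p
    simp only [mulVec, dotProduct]
    by_cases hp : p = j
    · subst hp
      simp [Matrix.single]
    · rw [Pi.single_eq_of_ne hp]
      apply Finset.sum_eq_zero
      intro q _
      rw [Matrix.single_apply_of_row_ne (Ne.symm hp), zero_mul]
  have he : (Pi.single j 1 : Fin n → ℂ) ∈ LinearMap.range Y'.mulVecLin := by
    refine ⟨(β * x j)⁻¹ • x, ?_⟩
    rw [mulVecLin_apply, mulVec_smul, hY', add_mulVec, hx, zero_add, hsingle]
    ext p
    by_cases hp : p = j
    · subst hp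
      simp only [Pi.smul_apply, Pi.single_eq_same, smul_eq_mul]
      exact inv_mul_cancel₀ (mul_ne_zero hβ hxj)
    · simp [Pi.single_eq_of_ne hp]
  have hle : LinearMap.range Y.mulVecLin ≤ LinearMap.range Y'.mulVecLin := by
    rintro y ⟨w, rfl⟩
    have h1 : Y.mulVecLin w = Y'.mulVecLin w - (β * w j) • (Pi.single j 1 : Fin n → ℂ) := by
      rw [mulVecLin_apply, mulVecLin_apply, hY', add_mulVec, hsingle]
      ext p
      by_cases hp : p = j
      · subst hp; simp
      · simp [Pi.single_eq_of_ne hp]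
    rw [h1]
    exact Submodule.sub_mem _ ⟨w, rfl⟩ (Submodule.smul_mem _ _ he)
  have heq := Submodule.eq_of_le_of_finrank_le hle hr
  rw [← heq] at he
  obtain ⟨w, hw⟩ := he
  exact ⟨w, hw⟩

/-- **the necessary condition** -/
theorem dia_lt_of_hom {v : Equiv.Perm (Fin n)} (h : Hom 1 v) {i j : Fin n} (hD : Dia v i j) :
    j < i := by
  by_contra hij
  rw [not_lt] at hij
  obtain ⟨hvj, hvi⟩ := hD
  have hjn : (j : ℕ) + 1 < n := by
    have := (v.symm i).isLt
    rw [Fin.lt_def] at hvi
    omega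
  set j1 : Fin n := ⟨(j : ℕ) + 1, hjn⟩ with hj1
  have hj1' : (j : ℕ) + 1 = j1 := rfl
  have hjj1 : j < j1 := by rw [Fin.lt_def]; omega
  set Z := Zv v with hZ
  have hZ1 : ∀ p q, p < q → Z p q = 0 := fun p q hpq => Zv_lt v hpq
  have hZ2 : ∀ p, Z p p = 1 := fun p => Zv_diag v p
  have hZX : InX v Z := by
    rw [hZ, Zv, ← mul_assoc]
    exact (inX_pm v).mul upper_Amat (upper_Bmat v)
  -- the entry `β`
  obtain ⟨b, hb0, hb⟩ : ∃ b : ℕ, 0 < b ∧ Z j1 j = (b : ℂ) := by
    have h1 := Zv_sub v hj1'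
    have h2 := sum_lt v hij hvi
    refine ⟨∑ l ∈ Finset.Iic j, (v l : ℕ) - ∑ l ∈ Finset.range ((j : ℕ) + 1), l, by omega, ?_⟩
    rw [hZ, h1, Nat.cast_sub h2.le]
  set β : ℂ := (b : ℂ) with hβ
  have hβ0 : β ≠ 0 := by rw [hβ]; exact_mod_cast hb0.ne'
  set κ : ℂ := 1 + 2 * β with hκ
  have hκ0 : κ ≠ 0 := by
    have : ((1 + 2 * b : ℕ) : ℂ) ≠ 0 := by exact_mod_cast (by omega : 1 + 2 * b ≠ 0)
    rw [hκ, hβ]
    push_cast at this
    exact this
  -- the row operation
  set Bs : Matrix (Fin n) (Fin n) ℂ := 1 + Matrix.single j j1 1 with hBs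
  have hBs_apply : ∀ (M : Matrix (Fin n) (Fin n) ℂ) (p q : Fin n),
      (Bs * M) p q = M p q + if p = j then M j1 q else 0 := by
    intro M p q
    rw [hBs, add_mul, one_mul, Matrix.add_apply]
    congr 1
    by_cases hp : p = j
    · subst hp
      rw [if_pos rfl, single_mul_apply_same, one_mul]
    · rw [if_neg hp, single_mul_apply_of_ne _ _ _ _ _ hp]
  have hBsU : Upper Bs := by
    intro p q hpq
    rw [hBs, Matrix.add_apply, one_apply_ne hpq.ne', zero_add]
    by_cases hp : p = j
    · subst hp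
      rw [Matrix.single_apply_of_col_ne]
      exact (lt_trans hpq hjj1).ne'
    · rw [Matrix.single_apply_of_row_ne (Ne.symm hp)]
  have hBsd : ∀ p, Bs p p ≠ 0 := by
    intro p
    rw [hBs, Matrix.add_apply, one_apply_eq]
    by_cases hp : p = j
    · subst hp
      rw [Matrix.single_apply_of_col_ne _ _ hjj1.ne', add_zero]
      exact one_ne_zero
    · rw [Matrix.single_apply_of_row_ne (Ne.symm hp), add_zero]
      exact one_ne_zero
  -- the column operation
  set B' : Matrix (Fin n) (Fin n) ℂ := Matrix.of fun y q =>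
    if q = j then (if y = j then κ⁻¹ else 0) else
    if q = j1 then (if y = j1 then κ else if y = j then -1 else 0) else
    if y = q then 1 else 0 with hB'
  have hB'U : Upper B' := by
    intro y q hyq
    simp only [hB', of_apply]
    by_cases h1 : q = j
    · subst h1
      rw [if_pos rfl, if_neg hyq.ne']
    · rw [if_neg h1]
      by_cases h2 : q = j1
      · subst h2
        rw [if_pos rfl, if_neg hyq.ne', if_neg]
        rintro rfl
        exact absurd hyq (not_lt.2 hjj1.le)
      · rw [if_neg h2, if_neg hyq.ne']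
  have hB'_apply : ∀ (M : Matrix (Fin n) (Fin n) ℂ) (p q : Fin n),
      (M * B') p q = if q = j then M p j * κ⁻¹ else if q = j1 then M p j1 * κ - M p j else
        M p q := by
    intro M p q
    rw [mul_apply]
    by_cases h1 : q = j
    · subst h1
      rw [if_pos rfl, Finset.sum_eq_single q]
      · simp [hB']
      · intro y _ hy
        simp [hB', hy]
      · simp
    · rw [if_neg h1]
      by_cases h2 : q = j1
      · subst h2
        rw [if_pos rfl]
        have hne : j ≠ j1 := hjj1.ne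
        rw [Finset.sum_eq_add j1 j hne.symm]
        · simp [hB', h1, hne]
          ring
        · intro y _ hy
          simp [hB', h1, hy.1, hy.2]
        · simp
        · simp
      · rw [if_neg h2, Finset.sum_eq_single q]
        · simp [hB', h1, h2]
        · intro y _ hy
          simp [hB', h1, h2, hy]
        · simp
  -- the first dilation
  set Z2 : Matrix (Fin n) (Fin n) ℂ := Matrix.of fun p q =>
    if q < p then 2 * Z p q else if p = q then 1 else 0 with hZ2d
  have hZ2X : InX v Z2 := inX_scale h hZ1 hZ2 hZX 2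
  set L := Bs * Z2 * B' with hL
  have hLX : InX v L := hZ2X.mul hBsU hB'U
  have hZ2a : ∀ p q, Z2 p q = if q < p then 2 * Z p q else if p = q then 1 else 0 :=
    fun p q => rfl
  have hLapp : ∀ p q, L p q = if q = j then (Z2 p j + if p = j then Z2 j1 j else 0) * κ⁻¹ else
      if q = j1 then (Z2 p j1 + if p = j then Z2 j1 j1 else 0) * κ -
        (Z2 p j + if p = j then Z2 j1 j else 0) else
      (Z2 p q + if p = j then Z2 j1 q else 0) := by
    intro p q
    rw [hL, hB'_apply, hBs_apply, hBs_apply, hBs_apply]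
  have e1 : Z2 j1 j = 2 * β := by rw [hZ2a, if_pos hjj1, hb]
  have e2 : Z2 j1 j1 = 1 := by rw [hZ2a, if_neg (lt_irrefl _), if_pos rfl]
  have e3 : Z2 j j1 = 0 := by rw [hZ2a, if_neg (not_lt.2 hjj1.le), if_neg hjj1.ne]
  have e4 : Z2 j j = 1 := by rw [hZ2a, if_neg (lt_irrefl _), if_pos rfl]
  have hL1 : ∀ p q, p < q → L p q = 0 := by
    intro p q hpq
    have z1 : ∀ a b, a < b → Z2 a b = 0 := by
      intro a b hab
      rw [hZ2a, if_neg (not_lt.2 hab.le), if_neg hab.ne]
    rw [hLapp]
    by_cases h1 : q = j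
    · subst h1
      rw [if_pos rfl, z1 p q hpq, if_neg hpq.ne, add_zero, zero_mul]
    · rw [if_neg h1]
      by_cases h2 : q = j1
      · subst h2
        rw [if_pos rfl, z1 p _ hpq, e2]
        by_cases h3 : p = j
        · subst h3
          rw [if_pos rfl, if_pos rfl, e4, e1, hκ]
          ring
        · have h4 : p < j := by
            rw [Fin.lt_def] at hpq ⊢
            have : (p : ℕ) ≠ j := fun h => h3 (Fin.ext h)
            omega
          rw [if_neg h3, if_neg h3, z1 p j h4]
          ring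
      · rw [if_neg h2, z1 p q hpq]
        by_cases h3 : p = j
        · subst h3
          have h4 : j1 < q := by
            rw [Fin.lt_def] at hpq ⊢
            have : (q : ℕ) ≠ j1 := fun h => h2 (Fin.ext h)
            omega
          rw [if_pos rfl, z1 j1 q h4, add_zero]
        · rw [if_neg h3, add_zero]
  have hL2 : ∀ p, L p p = 1 := by
    intro p
    have z1 : ∀ a, Z2 a a = 1 := by
      intro a
      rw [hZ2a, if_neg (lt_irrefl _), if_pos rfl]
    rw [hLapp]
    by_cases h1 : p = j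
    · subst h1
      rw [if_pos rfl, if_pos rfl, e4, e1]
      exact mul_inv_cancel₀ hκ0
    · rw [if_neg h1]
      by_cases h2 : p = j1
      · subst h2
        rw [if_pos rfl, if_neg h1, if_neg h1, z1, e1, hκ]
        ring
      · rw [if_neg h2, if_neg h1, z1, add_zero]
  -- the second dilation
  set W : Matrix (Fin n) (Fin n) ℂ := Matrix.of fun p q =>
    if q < p then (1 / 2 : ℂ) * L p q else if p = q then 1 else 0 with hW
  have hWX : InX v W := inX_scale h hL1 hL2 hLX (1 / 2)
  have hWa : ∀ p q, W p q = if q < p then (1 / 2 : ℂ) * L p q else if p = q then 1 else 0 :=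
    fun p q => rfl
  -- comparison with `Y + β E_jj`
  set Y := box i j (Bs * Z) with hY
  have hcomp : Y + Matrix.single j j β = box i j W * diagonal (fun q => if q = j then κ else 1) := by
    ext p q
    rw [Matrix.add_apply, mul_diagonal, hY, box_apply, box_apply]
    by_cases hpq : i ≤ p ∧ q ≤ j
    · rw [if_pos hpq, if_pos hpq, hBs_apply, hWa]
      by_cases h1 : q = j
      · subst h1
        rw [if_pos rfl]
        by_cases h2 : p = q
        · subst h2
          rw [if_pos rfl, if_neg (lt_irrefl _), if_pos rfl, single_apply_same, hZ2, hb, hκ]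
          ring
        · rw [if_neg h2, single_apply_of_row_ne (Ne.symm h2), if_neg h2]
          by_cases h3 : q < p
          · rw [if_pos h3, hLapp, if_pos rfl, if_neg h2, hZ2a, if_pos h3]
            field_simp
            ring
          · rw [if_neg h3, hZ1 p q (lt_of_le_of_ne (not_lt.1 h3) h2)]
            ring
      · have h1' : q < j := lt_of_le_of_ne hpq.2 h1
        have h1'' : q ≠ j1 := (h1'.trans hjj1).ne
        rw [if_neg h1, single_apply_of_col_ne _ _ (Ne.symm h1), mul_one, add_zero]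
        rcases lt_trichotomy q p with h3 | h3 | h3
        · rw [if_pos h3, hLapp, if_neg h1, if_neg h1'', hZ2a, if_pos h3, hZ2a,
            if_pos (h1'.trans hjj1)]
          split_ifs <;> ring
        · subst h3
          rw [if_neg h1, if_neg (lt_irrefl _), if_pos rfl, hZ2, add_zero]
        · rw [if_neg (not_lt.2 h3.le), if_neg h3.ne, if_neg (h3.trans h1').ne, hZ1 p q h3,
            add_zero]
    · rw [if_neg hpq, if_neg hpq, zero_add, zero_mul]
      by_cases h1 : p = j ∧ q = j
      · exact absurd ⟨h1.1 ▸ hij, h1.2.le⟩ hpq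
      · rw [not_and_or] at h1
        rcases h1 with h1 | h1
        · exact single_apply_of_row_ne (Ne.symm h1) _ _ _
        · exact single_apply_of_col_ne _ _ (Ne.symm h1) _
  have hrank : (Y + Matrix.single j j β).rank ≤ Y.rank := by
    have h1 : Y.rank = rk v i j := by
      rw [hY, hZ, Zv]
      have : Bs * (Amat n * (pm v * Bmat v)) = (Bs * Amat n) * pm v * Bmat v := by
        simp only [mul_assoc]
      rw [this, rank_box_mul i j (hBsU.mul upper_Amat) (upper_Bmat v)
        ((hBsU.isUnit hBsd).mul isUnit_Amat) (isUnit_Bmat v), rank_box_pm]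
    rw [h1, hcomp]
    exact le_trans (rank_mul_le_left _ _) (hWX i j)
  -- the kernel vector
  have hBB : Bmat v * (Bmat v)⁻¹ = 1 :=
    mul_nonsing_inv _ ((isUnit_iff_isUnit_det _).1 (isUnit_Bmat v))
  have hBinvU : Upper (Bmat v)⁻¹ := (upper_Bmat v).inv (isUnit_Bmat v)
  set x : Fin n → ℂ := fun q => (Bmat v)⁻¹ q j with hx
  have hxj : x j ≠ 0 := by
    intro h0
    have h1 : (Bmat v * (Bmat v)⁻¹) j j = 1 := by rw [hBB, one_apply_eq]
    rw [mul_apply, Finset.sum_eq_single j] at h1
    · rw [show (Bmat v)⁻¹ j j = 0 from h0, mul_zero] at h1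
      exact zero_ne_one h1
    · intro k _ hk
      rcases lt_or_gt_of_ne hk with h2 | h2
      · rw [upper_Bmat v j k h2, zero_mul]
      · rw [hBinvU k j h2, mul_zero]
    · simp
  have hYx : Y *ᵥ x = 0 := by
    ext p
    simp only [mulVec, dotProduct, Pi.zero_apply]
    by_cases hp : i ≤ p
    · have h1 : ∑ q, Y p q * x q = ((Bs * Amat n) * pm v * (Bmat v * (Bmat v)⁻¹)) p j := by
        have h2 : (Bs * Amat n) * pm v * (Bmat v * (Bmat v)⁻¹) = (Bs * Z) * (Bmat v)⁻¹ := by
          rw [hZ, Zv]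
          simp only [mul_assoc]
        rw [h2, mul_apply]
        apply Finset.sum_congr rfl
        intro q _
        by_cases hq : q ≤ j
        · rw [hY, box_apply, if_pos ⟨hp, hq⟩]
        · have : (Bmat v)⁻¹ q j = 0 := hBinvU q j (not_le.1 hq)
          rw [hx]
          simp only [this, mul_zero]
      rw [h1, hBB, mul_one, mul_apply, Finset.sum_eq_single (v j)]
      · rw [(hBsU.mul upper_Amat) p (v j) (lt_of_lt_of_le hvj hp), zero_mul]
      · intro y _ hy
        rw [pm_apply, if_neg (Ne.symm hy), mul_zero]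
      · simp
    · apply Finset.sum_eq_zero
      intro q _
      rw [hY, box_apply, if_neg (fun h => hp h.1), zero_mul]
  obtain ⟨w, hw⟩ := range_of_rank hβ0 hrank hYx hxj
  -- the vector `w` for `Z`
  have hYw : ∀ p, i ≤ p → ∑ q, (if q ≤ j then (Bs * Z) p q * w q else 0) =
      if p = j then 1 else 0 := by
    intro p hp
    have h1 := congrFun hw p
    simp only [mulVec, dotProduct, Pi.single_apply] at h1
    rw [← h1]
    apply Finset.sum_congr rfl
    intro q _
    rw [hY, box_apply]
    by_cases hq : q ≤ j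
    · rw [if_pos hq, if_pos ⟨hp, hq⟩]
    · rw [if_neg hq, if_neg (fun h => hq h.2), zero_mul]
  have hZw : ∀ p, i ≤ p → ∑ q, (if q ≤ j then Z p q * w q else 0) = if p = j then 1 else 0 := by
    have h0 : ∀ p, i ≤ p → p ≠ j → ∑ q, (if q ≤ j then Z p q * w q else 0) = 0 := by
      intro p hp hpj
      have h1 := hYw p hp
      rw [if_neg hpj] at h1
      refine Eq.trans (Finset.sum_congr rfl ?_) h1
      intro q _
      rw [hBs_apply, if_neg hpj, add_zero]
    intro p hp
    by_cases hpj : p = j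
    · subst hpj
      have h1 := hYw p hp
      rw [if_pos rfl] at h1 ⊢
      have h2 := h0 j1 (hij.trans hjj1.le) hjj1.ne'
      have h3 : ∑ q, (if q ≤ p then (Bs * Z) p q * w q else 0) =
          ∑ q, (if q ≤ p then Z p q * w q else 0) + ∑ q, (if q ≤ p then Z j1 q * w q else 0) := by
        rw [← Finset.sum_add_distrib]
        apply Finset.sum_congr rfl
        intro q _
        rw [hBs_apply, if_pos rfl]
        split_ifs <;> ring
      rw [h3, h2, add_zero] at h1
      exact h1
    · rw [if_neg hpj]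
      exact h0 p hp hpj
  -- pairing with the row of the inverse
  have hyz : ∀ q, q ≤ j → ∑ p, Bmat (1 : Equiv.Perm (Fin n)) i p * Z p q = 0 := by
    intro q hq
    have h1 : ∑ p, Bmat (1 : Equiv.Perm (Fin n)) i p * Z p q = (Bmat (1 : Equiv.Perm (Fin n)) * Z) i q := by
      rw [mul_apply]
    rw [h1, hZ, Zv, ← mul_assoc, Bmat_one_mul_Amat, one_mul, pm_mul]
    exact Bmat_of_not_le v (not_le.2 (lt_of_le_of_lt hq hvi))
  have hfin : Bmat (1 : Equiv.Perm (Fin n)) i j = 0 := by
    have h1 : ∑ p, Bmat (1 : Equiv.Perm (Fin n)) i p *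
        (∑ q, (if q ≤ j then Z p q * w q else 0)) = Bmat (1 : Equiv.Perm (Fin n)) i j := by
      rw [Finset.sum_eq_single j]
      · rw [hZw j hij, if_pos rfl, mul_one]
      · intro p _ hp
        by_cases hip : i ≤ p
        · rw [hZw p hip, if_neg hp, mul_zero]
        · rw [Bmat_of_not_le _ hip, zero_mul]
      · simp
    rw [← h1]
    simp only [Finset.mul_sum]
    rw [Finset.sum_comm]
    apply Finset.sum_eq_zero
    intro q _
    by_cases hq : q ≤ j
    · have h2 := hyz q hq
      calc ∑ p, Bmat (1 : Equiv.Perm (Fin n)) i p * (if q ≤ j then Z p q * w q else 0)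
          = (∑ p, Bmat (1 : Equiv.Perm (Fin n)) i p * Z p q) * w q := by
            rw [Finset.sum_mul]
            apply Finset.sum_congr rfl
            intro p _
            rw [if_pos hq]
            ring
        _ = 0 := by rw [h2, zero_mul]
    · apply Finset.sum_eq_zero
      intro p _
      rw [if_neg hq, mul_zero]
  exact Bmat_ne 1 hij hfin

end Pool.Agent.H30.KL
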