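import Pool.Agent.H30.KL.Ident

/-! # The case `u = id`: the characterisation -/

open MvPolynomial Matrix

namespace Pool.Agent.H30.KL

variable {n : ℕ}

/-- a determinant of linear forms is homogeneous -/
theorem det_hom {σ : Type*} {m : ℕ} (M : Matrix (Fin m) (Fin m) (MvPolynomial σ ℂ))
    (h : ∀ a b, (M a b).IsHomogeneous 1) : M.det.IsHomogeneous m := by
  rw [det_apply]
  apply IsHomogeneous.sum
  intro s _
  have key : (∏ b : Fin m, M (s b) b).IsHomogeneous m := by
    have := IsHomogeneous.prod (Finset.univ : Finset (Fin m)) (fun b => M (s b) b) (fun _ => 1)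
      (fun b _ => h _ _)
    simpa using this
  rcases Int.units_eq_one_or (Equiv.Perm.sign s) with h | h
  · rw [h, one_smul]; exact key
  · rw [h, Units.neg_smul, one_smul]; exact key.neg

theorem hom_one_of_dia {v : Equiv.Perm (Fin n)} (h : ∀ i j, Dia v i j → j < i) : Hom 1 v := by
  apply hom_of_dia
  intro i j hD m f g _ hf hg
  refine ⟨m, det_hom _ ?_⟩
  intro a b
  have hlt : g b < f a := lt_of_le_of_lt (hg b) (lt_of_lt_of_le (h i j hD) (hf a))
  rw [submatrix_apply, Zmat, of_apply, dif_pos ⟨hlt, hlt⟩]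
  exact isHomogeneous_X _ _

/-- above and to the right of a box of the diagram there is an essential box -/
theorem exists_ess {v : Equiv.Perm (Fin n)} : ∀ (N : ℕ) (i j : Fin n), (i : ℕ) + (n - j) ≤ N →
    Dia v i j → ∃ i' j', Ess v i' j' ∧ i' ≤ i ∧ j ≤ j' := by
  intro N
  induction N with
  | zero =>
    intro i j h _
    have := j.isLt
    omega
  | succ N ih =>
    intro i j hN hD
    have hj := j.isLt
    by_cases h1 : ∀ i' : Fin n, (i' : ℕ) + 1 = i → ¬ Dia v i' j
    · by_cases h2 : ∀ j' : Fin n, (j' : ℕ) = j + 1 → ¬ Dia v i j'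
      · exact ⟨i, j, ⟨hD, h1, h2⟩, le_rfl, le_rfl⟩
      · push Not at h2
        obtain ⟨j', hj', hD'⟩ := h2
        obtain ⟨i2, j2, hE, hi2, hj2⟩ := ih i j' (by have := j'.isLt; omega) hD'
        exact ⟨i2, j2, hE, hi2, le_trans (by rw [Fin.le_def]; omega) hj2⟩
    · push Not at h1
      obtain ⟨i', hi', hD'⟩ := h1
      obtain ⟨i2, j2, hE, hi2, hj2⟩ := ih i' j (by omega) hD'
      exact ⟨i2, j2, hE, le_trans hi2 (by rw [Fin.le_def]; omega), hj2⟩

/-- **Theorem.** For `u = id` the ideal `I_{u,v}` is homogeneous iff the essential set of `v` lies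
strictly below the diagonal, iff there are no positions `p < q` with `v(p) < v(q) ≤ p`. -/
theorem ident_iff (v : Equiv.Perm (Fin n)) :
    List.TFAE [Hom 1 v, ∀ i j, Ess v i j → j < i, ∀ p q, p < q → v p < v q → p < v q] := by
  tfae_have 1 → 2 := fun h i j hE => dia_lt_of_hom h hE.1
  tfae_have 2 → 3 := by
    intro h p q hpq hv
    have hD : Dia v (v q) p := ⟨hv, by simpa using hpq⟩
    obtain ⟨i', j', hE, hi, hj⟩ := exists_ess _ _ _ le_rfl hD
    exact lt_of_le_of_lt hj (lt_of_lt_of_le (h i' j' hE) hi)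
  tfae_have 3 → 1 := by
    intro h
    apply hom_one_of_dia
    intro i j hD
    have := h j (v.symm i) hD.2 (by simpa using hD.1)
    simpa using this
  tfae_finish

end Pool.Agent.H30.KL
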